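import Mathlib

set_option autoImplicit false

/-!
Binary spaces: `W` is a subspace of the finitely supported functions `E →₀ ZMod 2`.
`sub W X` is the part of `W` supported on `X`.
-/

namespace Pool.Agent.H209MF

open Finsupp Module

universe u v

variable {E : Type u} {E' : Type v}

/-- The part of `W` supported on `X`. -/
noncomputable def sub (W : Submodule (ZMod 2) (E →₀ ZMod 2)) (X : Set E) : Submodule (ZMod 2) (E →₀ ZMod 2) :=
  W ⊓ Finsupp.supported (ZMod 2) (ZMod 2) X

lemma mem_sub {W : Submodule (ZMod 2) (E →₀ ZMod 2)} {X : Set E} {x : E →₀ ZMod 2} :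
    x ∈ sub W X ↔ x ∈ W ∧ ∀ a, x a ≠ 0 → a ∈ X := by
  unfold sub
  rw [Submodule.mem_inf, Finsupp.mem_supported]
  constructor
  · rintro ⟨h1, h2⟩
    exact ⟨h1, fun a ha => h2 (by simpa using ha)⟩
  · rintro ⟨h1, h2⟩
    exact ⟨h1, fun a ha => h2 a (by simpa using ha)⟩

lemma sub_mono (W : Submodule (ZMod 2) (E →₀ ZMod 2)) {X Y : Set E} (h : X ⊆ Y) :
    sub W X ≤ sub W Y := fun x hx => by
  rw [mem_sub] at hx ⊢
  exact ⟨hx.1, fun a ha => h (hx.2 a ha)⟩

lemma sub_fd (W : Submodule (ZMod 2) (E →₀ ZMod 2)) {X : Set E} (h : X.Finite) :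
    Module.Finite (ZMod 2) (sub W X) := by
  have h1 : Module.Finite (ZMod 2) (Finsupp.supported (ZMod 2) (ZMod 2) X) := by
    have := h.to_subtype
    exact Module.Finite.equiv (Finsupp.supportedEquivFinsupp (M := ZMod 2) (R := ZMod 2) X).symm
  exact Submodule.finiteDimensional_of_le (S₂ := Finsupp.supported (ZMod 2) (ZMod 2) X) inf_le_right

lemma zmod2_ne_zero {a : ZMod 2} (h : a ≠ 0) : a = 1 := by
  revert a; decide

/-- Removing one element that is covered lowers the dimension by exactly one. -/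
lemma finrank_remove (W : Submodule (ZMod 2) (E →₀ ZMod 2)) {X : Set E} (h : X.Finite) (a : E) :
    finrank (ZMod 2) (sub W X) ≤ finrank (ZMod 2) (sub W (X \ {a})) + 1 ∧
    ((∃ x ∈ sub W X, x a ≠ 0) →
      finrank (ZMod 2) (sub W X) = finrank (ZMod 2) (sub W (X \ {a})) + 1) := by
  have := sub_fd W h
  let ev : sub W X →ₗ[ZMod 2] ZMod 2 := (Finsupp.lapply a).comp (sub W X).subtype
  have hk : finrank (ZMod 2) (LinearMap.ker ev) = finrank (ZMod 2) (sub W (X \ {a})) := by
    have e1 : (LinearMap.ker ev).map (sub W X).subtype = sub W (X \ {a}) := by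
      ext x
      simp only [Submodule.mem_map, LinearMap.mem_ker, Submodule.subtype_apply, Subtype.exists,
        exists_and_right, exists_eq_right]
      constructor
      · rintro ⟨hx, h0⟩
        rw [mem_sub] at hx ⊢
        refine ⟨hx.1, fun b hb => ⟨hx.2 b hb, ?_⟩⟩
        rintro rfl
        exact hb h0
      · intro hx
        have hx' : x ∈ sub W X := sub_mono W Set.sdiff_subset hx
        refine ⟨hx', ?_⟩
        show x a = 0
        by_contra hne
        rw [mem_sub] at hx
        exact (hx.2 a hne).2 rfl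
    rw [← e1]
    exact (LinearEquiv.finrank_eq (Submodule.equivMapOfInjective _ (Submodule.injective_subtype _) _))
  have hrn := LinearMap.finrank_range_add_finrank_ker ev
  rw [hk] at hrn
  have hr1 : finrank (ZMod 2) (LinearMap.range ev) ≤ 1 := by
    have := Submodule.finrank_le (LinearMap.range ev)
    simpa using this
  refine ⟨by omega, ?_⟩
  rintro ⟨x, hx, hxa⟩
  have hr2 : LinearMap.range ev = ⊤ := by
    rw [LinearMap.range_eq_top]
    intro c
    refine ⟨c • ⟨x, hx⟩, ?_⟩
    show c * x a = c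
    rw [zmod2_ne_zero hxa, mul_one]
  rw [hr2, finrank_top] at hrn
  simp at hrn
  omega

lemma finrank_lt_of_ne (W : Submodule (ZMod 2) (E →₀ ZMod 2)) {X Y : Set E} (hY : Y.Finite)
    (h : X ⊆ Y) (hc : ∀ a ∈ Y, ∃ x ∈ sub W Y, x a ≠ 0) (hne : X ≠ Y) :
    finrank (ZMod 2) (sub W X) < finrank (ZMod 2) (sub W Y) := by
  obtain ⟨a, haY, haX⟩ : ∃ a ∈ Y, a ∉ X := by
    by_contra hcon
    push Not at hcon
    exact hne (Set.Subset.antisymm h hcon)
  have h1 := (finrank_remove W hY a).2 (hc a haY)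
  have h2 : X ⊆ Y \ {a} := fun b hb => ⟨h hb, by rintro rfl; exact haX hb⟩
  have := sub_fd W (hY.subset (Set.sdiff_subset (s := Y) (t := {a})))
  have h3 := Submodule.finrank_mono (sub_mono W h2)
  omega

/-- A finite set of nullity at least `m` has a covered subset of nullity exactly `m`. -/
lemma exists_core (W : Submodule (ZMod 2) (E →₀ ZMod 2)) {X : Set E} (h : X.Finite) (m : ℕ)
    (hm : m ≤ finrank (ZMod 2) (sub W X)) :
    ∃ A ⊆ X, finrank (ZMod 2) (sub W A) = m ∧ ∀ a ∈ A, ∃ x ∈ sub W A, x a ≠ 0 := by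
  classical
  -- choose `A` of least cardinality
  have hex : ∃ n, ∃ A : Set E, A ⊆ X ∧ m ≤ finrank (ZMod 2) (sub W A) ∧ A.ncard = n :=
    ⟨_, X, subset_rfl, hm, rfl⟩
  obtain ⟨A, hAX, hmA, hcard⟩ := Nat.find_spec hex
  have hmin := fun n (hn : n < Nat.find hex) => Nat.find_min hex hn
  have hAf : A.Finite := h.subset hAX
  have key : ∀ a ∈ A, finrank (ZMod 2) (sub W (A \ {a})) < m := by
    intro a ha
    by_contra hcon
    push Not at hcon
    refine hmin (A \ {a}).ncard ?_ ⟨A \ {a}, Set.sdiff_subset.trans hAX, hcon, rfl⟩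
    rw [← hcard]
    exact Set.ncard_sdiff_singleton_lt_of_mem ha hAf
  have hcov : ∀ a ∈ A, ∃ x ∈ sub W A, x a ≠ 0 := by
    intro a ha
    by_contra hcon
    push Not at hcon
    have : sub W A = sub W (A \ {a}) := by
      apply le_antisymm
      · intro x hx
        have h0 := hcon x hx
        rw [mem_sub] at hx ⊢
        refine ⟨hx.1, fun b hb => ⟨hx.2 b hb, ?_⟩⟩
        rintro rfl
        exact hb h0
      · exact sub_mono W Set.sdiff_subset
    have h2 := key a ha
    rw [← this] at h2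
    omega
  refine ⟨A, hAX, ?_, hcov⟩
  rcases A.eq_empty_or_nonempty with rfl | ⟨a, ha⟩
  · have : finrank (ZMod 2) (sub W (∅ : Set E)) = 0 := by
      have hb : sub W (∅ : Set E) = ⊥ := by
        rw [eq_bot_iff]
        intro x hx
        rw [mem_sub] at hx
        rw [Submodule.mem_bot]
        ext a
        by_contra hne
        exact (hx.2 a hne).elim
      rw [hb]; simp
    omega
  · have h1 := (finrank_remove W hAf a).1
    have h2 := key a ha
    omega

/-- `S` splits off: members of `W` supported on `X` may be restricted to `S`. -/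
def Split (W : Submodule (ZMod 2) (E →₀ ZMod 2)) (X S : Set E) : Prop :=
  ∀ x ∈ sub W X, ∀ y : E →₀ ZMod 2, (∀ a ∈ S, y a = x a) → (∀ a, a ∉ S → y a = 0) → y ∈ W

/-- The labels of a doubled cycle of length `n + 2`. -/
def Lab (n : ℕ) (p : ℕ × Bool) : Prop := p.1 < n + 2

/-- The cycle space of the doubled cycle of length `n + 2`: all pair sums are equal. -/
def Bal (n : ℕ) (y : ℕ × Bool → ZMod 2) (c : ZMod 2) : Prop :=
  ∀ i, i < n + 2 → y (i, false) + y (i, true) = c

/-- `Z` carries a subdivided doubled cycle of length `n + 2` in `W`. -/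
def Blk (W : Submodule (ZMod 2) (E →₀ ZMod 2)) (n : ℕ) (Z : Set E) : Prop :=
  Z.Finite ∧ ∃ l : E → ℕ × Bool, (∀ a ∈ Z, Lab n (l a)) ∧ (∀ p, Lab n p → ∃ a ∈ Z, l a = p) ∧
    ∀ x : E →₀ ZMod 2, (∀ a, x a ≠ 0 → a ∈ Z) →
      (x ∈ W ↔ ∃ y : ℕ × Bool → ZMod 2, ∃ c, Bal n y c ∧ ∀ a ∈ Z, x a = y (l a))

lemma zmod2_cases (a : ZMod 2) : a = 0 ∨ a = 1 := by
  revert a; decide

lemma zmod2_add_self (a : ZMod 2) : a + a = 0 := by
  revert a; decide

/-- The element with label function `y`. -/
lemma exists_elt {W : Submodule (ZMod 2) (E →₀ ZMod 2)} {n : ℕ} {Z : Set E} (hf : Z.Finite)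
    {l : E → ℕ × Bool}
    (hl : ∀ x : E →₀ ZMod 2, (∀ a, x a ≠ 0 → a ∈ Z) →
      (x ∈ W ↔ ∃ y : ℕ × Bool → ZMod 2, ∃ c, Bal n y c ∧ ∀ a ∈ Z, x a = y (l a)))
    (y : ℕ × Bool → ZMod 2) (c : ZMod 2) (hy : Bal n y c) :
    ∃ x ∈ sub W Z, ∀ a ∈ Z, x a = y (l a) := by
  classical
  let x : E →₀ ZMod 2 := Finsupp.onFinset hf.toFinset (fun a => if a ∈ Z then y (l a) else 0)
    (by
      intro a ha
      by_contra h
      simp only [Set.Finite.mem_toFinset] at h
      simp [h] at ha)
  have hx : ∀ a, x a = if a ∈ Z then y (l a) else 0 := fun a => rfl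
  have hs : ∀ a, x a ≠ 0 → a ∈ Z := by
    intro a ha
    by_contra h
    rw [hx, if_neg h] at ha
    exact ha rfl
  have hxa : ∀ a ∈ Z, x a = y (l a) := fun a ha => by rw [hx, if_pos ha]
  exact ⟨x, mem_sub.2 ⟨(hl x hs).2 ⟨y, c, hy, hxa⟩, hs⟩, hxa⟩

lemma bal_one (n : ℕ) : Bal n (fun _ => 1) 0 := fun _ _ => by
  show (1 : ZMod 2) + 1 = 0
  decide

lemma bal_pair (n j : ℕ) : Bal n (fun p => if p.1 = j then 1 else 0) 0 := fun i _ => by
  show (if i = j then (1 : ZMod 2) else 0) + (if i = j then 1 else 0) = 0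
  exact zmod2_add_self _

lemma bal_trans (n : ℕ) (t : ℕ → Bool) : Bal n (fun p => if p.2 = t p.1 then 1 else 0) 1 :=
  fun i _ => by
    show (if false = t i then (1 : ZMod 2) else 0) + (if true = t i then 1 else 0) = 1
    cases t i <;> simp

lemma Bal.other {n : ℕ} {y : ℕ × Bool → ZMod 2} {c : ZMod 2} (h : Bal n y c) {i : ℕ}
    (hi : i < n + 2) (b : Bool) : y (i, b) + y (i, !b) = c := by
  have := h i hi
  cases b
  · exact this
  · rw [add_comm]; exact this

lemma Blk.cover {W : Submodule (ZMod 2) (E →₀ ZMod 2)} {n : ℕ} {Z : Set E} (h : Blk W n Z) :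
    ∀ a ∈ Z, ∃ x ∈ sub W Z, x a ≠ 0 := by
  obtain ⟨hf, l, h1, h2, hl⟩ := h
  intro a ha
  obtain ⟨x, hx, hxa⟩ := exists_elt hf hl _ _ (bal_one n)
  refine ⟨x, hx, ?_⟩
  rw [hxa a ha]
  exact one_ne_zero

/-- A block has a member that is not constant. -/
lemma Blk.nonconst {W : Submodule (ZMod 2) (E →₀ ZMod 2)} {n : ℕ} {Z : Set E} (h : Blk W n Z) :
    ∃ x ∈ sub W Z, ∃ a ∈ Z, ∃ b ∈ Z, x a ≠ x b := by
  obtain ⟨hf, l, h1, h2, hl⟩ := h
  obtain ⟨x, hx, hxa⟩ := exists_elt hf hl _ _ (bal_trans n (fun _ => false))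
  obtain ⟨a, ha, hla⟩ := h2 (0, false) (by unfold Lab; simp)
  obtain ⟨b, hb, hlb⟩ := h2 (0, true) (by unfold Lab; simp)
  refine ⟨x, hx, a, ha, b, hb, ?_⟩
  rw [hxa a ha, hxa b hb, hla, hlb]
  simp

lemma Blk.conn {W : Submodule (ZMod 2) (E →₀ ZMod 2)} {n : ℕ} {Z : Set E} (h : Blk W n Z)
    {S : Set E} (hS : S ⊆ Z) (hne : S.Nonempty) (hsp : Split W Z S) : S = Z := by
  classical
  obtain ⟨hf, l, h1, h2, hl⟩ := h
  have key : ∀ a ∈ S, ∀ a3 ∈ Z, (l a3).1 ≠ (l a).1 → a3 ∈ S := by
    intro a ha a3 ha3 hne3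
    let t : ℕ → Bool := fun i => if i = (l a).1 then (l a).2 else (l a3).2
    obtain ⟨x, hx, hxa⟩ := exists_elt hf hl _ _ (bal_trans n t)
    let u : E →₀ ZMod 2 := x.filter (· ∈ S)
    have hu : u ∈ W := hsp x hx u (fun b hb => Finsupp.filter_apply_pos _ _ hb)
      (fun b hb => Finsupp.filter_apply_neg _ _ hb)
    have huS : ∀ b, u b ≠ 0 → b ∈ S := by
      intro b hb
      by_contra hbS
      exact hb (Finsupp.filter_apply_neg _ _ hbS)
    obtain ⟨y, c, hy, hyu⟩ := (hl u (fun b hb => hS (huS b hb))).1 hu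
    -- labels not on the transversal vanish
    have hz : ∀ i, i < n + 2 → y (i, !(t i)) = 0 := by
      intro i hi
      obtain ⟨b, hb, hlb⟩ := h2 (i, !(t i)) hi
      rw [← hlb, ← hyu b hb]
      by_cases hbS : b ∈ S
      · have e1 : u b = x b := Finsupp.filter_apply_pos _ _ hbS
        rw [e1, hxa b hb, hlb]
        simp
      · exact Finsupp.filter_apply_neg _ _ hbS
    have hla : (l a).1 < n + 2 := h1 a (hS ha)
    have hla3 : (l a3).1 < n + 2 := h1 a3 ha3
    have ta : t (l a).1 = (l a).2 := by simp [t]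
    have ta3 : t (l a3).1 = (l a3).2 := by simp [t, hne3]
    have hya : y (l a) = 1 := by
      rw [← hyu a (hS ha)]
      have e1 : u a = x a := Finsupp.filter_apply_pos _ _ ha
      rw [e1, hxa a (hS ha), ta]
      simp
    have hc : c = 1 := by
      have := hy.other hla (t (l a).1)
      rw [hz _ hla, ta, add_zero] at this
      rw [← this]
      exact hya
    have hya3 : y (l a3) = 1 := by
      have := hy.other hla3 (t (l a3).1)
      rw [hz _ hla3, ta3, add_zero, hc] at this
      exact this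
    apply huS
    rw [hyu a3 ha3, hya3]
    exact one_ne_zero
  obtain ⟨a, ha⟩ := hne
  apply Set.Subset.antisymm hS
  intro b hb
  by_cases hab : (l b).1 = (l a).1
  · -- go through another pair
    obtain ⟨i, hi, hia⟩ : ∃ i, i < n + 2 ∧ i ≠ (l a).1 := by
      by_cases h0 : (l a).1 = 0
      · exact ⟨1, by omega, by omega⟩
      · exact ⟨0, by omega, by omega⟩
    obtain ⟨d, hd, hld⟩ := h2 (i, false) hi
    have hdS : d ∈ S := key a ha d hd (by rw [hld]; exact hia)
    exact key d hdS b hb (by rw [hld, hab]; exact fun h => hia h.symm)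
  · exact key a ha b hb hab

lemma Blk.finrank_eq {W : Submodule (ZMod 2) (E →₀ ZMod 2)} {n : ℕ} {Z : Set E} (h : Blk W n Z) :
    finrank (ZMod 2) (sub W Z) = n + 3 := by
  classical
  obtain ⟨hf, l, h1, h2, hl⟩ := h
  have hrep : ∀ p : ℕ × Bool, ∃ a, Lab n p → a ∈ Z ∧ l a = p := by
    intro p
    by_cases hp : Lab n p
    · obtain ⟨a, ha⟩ := h2 p hp
      exact ⟨a, fun _ => ha⟩
    · obtain ⟨a, ha⟩ := h2 (0, false) (by unfold Lab; simp)
      exact ⟨a, fun h => (hp h).elim⟩
  choose r hr using hrep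
  let φ : sub W Z →ₗ[ZMod 2] (ZMod 2 × (Fin (n + 2) → ZMod 2)) :=
    { toFun := fun x => (x.1 (r (0, false)) + x.1 (r (0, true)),
        fun i => x.1 (r (i.1, false)))
      map_add' := by
        intro x y
        ext
        · simp; ring
        · simp
      map_smul' := by
        intro c x
        ext
        · simp; ring
        · simp }
  have hbij : Function.Bijective φ := by
    constructor
    · rw [injective_iff_map_eq_zero]
      rintro ⟨x, hx⟩ h0
      have hx' := mem_sub.1 hx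
      obtain ⟨y, c, hy, hxy⟩ := (hl x hx'.2).1 hx'.1
      have h0' := Prod.ext_iff.1 h0
      have e1 : x (r (0, false)) + x (r (0, true)) = 0 := h0'.1
      have e2 : ∀ i : Fin (n + 2), x (r (i.1, false)) = 0 := fun i => congrFun h0'.2 i
      have hxr : ∀ p, Lab n p → x (r p) = y p := fun p hp => by
        rw [hxy _ (hr p hp).1, (hr p hp).2]
      have hc : c = 0 := by
        rw [← hy 0 (by omega), ← hxr (0, false) (by unfold Lab; simp), ← hxr (0, true) (by unfold Lab; simp)]
        exact e1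
      have hy0 : ∀ i, i < n + 2 → y (i, false) = 0 := fun i hi => by
        rw [← hxr (i, false) hi]; exact e2 ⟨i, hi⟩
      have hy1 : ∀ i, i < n + 2 → y (i, true) = 0 := fun i hi => by
        have := hy i hi
        rw [hy0 i hi, hc, zero_add] at this
        exact this
      apply Subtype.ext
      show x = 0
      ext a
      by_cases ha : a ∈ Z
      · rw [hxy a ha]
        have := h1 a ha
        rcases hla : l a with ⟨i, b⟩
        rw [hla] at this
        cases b
        · exact hy0 i this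
        · exact hy1 i this
      · by_contra hne
        exact ha (hx'.2 a hne)
    · rintro ⟨c, f⟩
      let y : ℕ × Bool → ZMod 2 := fun p =>
        (if h : p.1 < n + 2 then f ⟨p.1, h⟩ else 0) + (if p.2 then c else 0)
      have hy : Bal n y c := by
        intro i hi
        show ((if h : i < n + 2 then f ⟨i, h⟩ else 0) + 0) +
          ((if h : i < n + 2 then f ⟨i, h⟩ else 0) + c) = c
        rw [dif_pos hi, add_zero, ← add_assoc, zmod2_add_self, zero_add]
      obtain ⟨x, hx, hxa⟩ := exists_elt hf hl y c hy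
      refine ⟨⟨x, hx⟩, ?_⟩
      have hxr : ∀ p, Lab n p → x (r p) = y p := fun p hp => by
        rw [hxa _ (hr p hp).1, (hr p hp).2]
      apply Prod.ext
      · show x (r (0, false)) + x (r (0, true)) = c
        rw [hxr (0, false) (by unfold Lab; simp), hxr (0, true) (by unfold Lab; simp)]
        exact hy 0 (by omega)
      · funext i
        show x (r (i.1, false)) = f i
        rw [hxr (i.1, false) i.2]
        show (if h : i.1 < n + 2 then f ⟨i.1, h⟩ else 0) + 0 = f i
        rw [dif_pos i.2, add_zero]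
  have := (LinearEquiv.ofBijective φ hbij).finrank_eq
  rw [this, Module.finrank_prod]
  simp
  omega

lemma Blk.ncard_gt {W : Submodule (ZMod 2) (E →₀ ZMod 2)} {n : ℕ} {Z : Set E} (h : Blk W n Z) :
    n + 2 ≤ Z.ncard := by
  obtain ⟨hf, l, h1, h2, hl⟩ := h
  have : ∀ i : Fin (n + 2), ∃ a ∈ Z, l a = (i.1, false) := fun i => h2 (i.1, false) i.2
  choose r hr1 hr2 using this
  have hinj : Function.Injective r := by
    intro i j hij
    have := hr2 i
    rw [hij, hr2 j] at this
    exact Fin.ext (Prod.ext_iff.1 this).1.symm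
  have h3 : Set.range r ⊆ Z := by
    rintro _ ⟨i, rfl⟩
    exact hr1 i
  have h4 := Set.ncard_le_ncard h3 hf
  have h5 : (Set.range r).ncard = n + 2 := by
    rw [← Set.image_univ, Set.ncard_image_of_injective _ hinj, Set.ncard_univ]
    simp
  omega

lemma Blk.anti {W : Submodule (ZMod 2) (E →₀ ZMod 2)} {n m : ℕ} {Z Z' : Set E} (h : Blk W n Z)
    (h' : Blk W m Z') (hsub : Z ⊆ Z') : Z = Z' := by
  classical
  by_contra hne
  obtain ⟨a', haZ', haZ⟩ : ∃ a ∈ Z', a ∉ Z := by
    by_contra hcon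
    push Not at hcon
    exact hne (Set.Subset.antisymm hsub hcon)
  obtain ⟨x0, hx0, p0, hp0, q0, hq0, hpq⟩ := h.nonconst
  have hB := h
  have hB' := h'
  obtain ⟨hf, l, h1, h2, hl⟩ := h
  obtain ⟨hf', l', h1', h2', hl'⟩ := h'
  obtain ⟨one, hone, hone1⟩ := exists_elt hf hl _ _ (bal_one n)
  have hone0 : ∀ a, a ∉ Z → one a = 0 := fun a ha => by
    by_contra hcon
    exact ha ((mem_sub.1 hone).2 a hcon)
  have hlab : ∀ x ∈ sub W Z, ∃ y : ℕ × Bool → ZMod 2, ∃ c, Bal m y c ∧ ∀ a ∈ Z', x a = y (l' a) :=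
    fun x hx => (hl' x (fun a ha => hsub ((mem_sub.1 hx).2 a ha))).1 (mem_sub.1 hx).1
  obtain ⟨y1, γ, hy1, hy1a⟩ := hlab one hone
  have hout : ∀ x ∈ sub W Z, ∀ a, a ∉ Z → x a = 0 := fun x hx a ha => by
    by_contra hcon
    exact ha ((mem_sub.1 hx).2 a hcon)
  -- the fibre of a label missing in `one` is outside `Z`
  have hmiss : ∀ i b, i < m + 2 → y1 (i, b) = 0 → ∀ a ∈ Z', l' a = (i, b) → a ∉ Z := by
    intro i b hi h0 a ha hla haZ
    have e1 := hy1a a ha
    rw [hla, h0, hone1 a haZ] at e1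
    exact one_ne_zero e1
  have hmiss' : ∀ i b, i < m + 2 → y1 (i, b) = 0 → ∀ x ∈ sub W Z, ∀ y : ℕ × Bool → ZMod 2,
      (∀ a ∈ Z', x a = y (l' a)) → y (i, b) = 0 := by
    intro i b hi h0 x hx y hxy
    obtain ⟨a, ha, hla⟩ := h2' (i, b) hi
    rw [← hla, ← hxy a ha]
    exact hout x hx a (hmiss i b hi h0 a ha hla)
  rcases zmod2_cases γ with hγ | hγ
  · -- `Z` is a union of full pairs
    subst hγ
    -- the pair of `a'` is missing
    have hi0 : (l' a').1 < m + 2 := h1' a' haZ'
    have hy10 : y1 (l' a') = 0 := by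
      rw [← hy1a a' haZ']
      exact hone0 a' haZ
    have hy10' : y1 ((l' a').1, !(l' a').2) = 0 := by
      have := hy1.other hi0 (l' a').2
      rw [show ((l' a').1, (l' a').2) = l' a' from rfl, hy10, zero_add] at this
      exact this
    have hc0 : ∀ x ∈ sub W Z, ∀ y : ℕ × Bool → ZMod 2, ∀ c, Bal m y c →
        (∀ a ∈ Z', x a = y (l' a)) → c = 0 := by
      intro x hx y c hy hxy
      have e1 := hy.other hi0 (l' a').2
      rw [hmiss' _ _ hi0 hy10 x hx y hxy, hmiss' _ _ hi0 hy10' x hx y hxy, add_zero] at e1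
      exact e1.symm
    -- choose an element of `Z`
    have hp0' : p0 ∈ Z' := hsub hp0
    have hj : (l' p0).1 < m + 2 := h1' p0 hp0'
    obtain ⟨p, hp, hpa⟩ := exists_elt hf' hl' _ _ (bal_pair m (l' p0).1)
    have hy1p : ∀ b, y1 ((l' p0).1, b) = 1 := by
      have e0 : y1 ((l' p0).1, (l' p0).2) = 1 := by
        rw [show ((l' p0).1, (l' p0).2) = l' p0 from rfl, ← hy1a p0 hp0']
        exact hone1 p0 hp0
      have e1 := hy1.other hj (l' p0).2
      rw [e0] at e1
      have e2 : y1 ((l' p0).1, !(l' p0).2) = 1 := by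
        rcases zmod2_cases (y1 ((l' p0).1, !(l' p0).2)) with h | h
        · rw [h] at e1; exact absurd e1 (by decide)
        · exact h
      intro b
      by_cases hb : b = (l' p0).2
      · rw [hb]; exact e0
      · rw [show b = !(l' p0).2 by cases b <;> cases hh : (l' p0).2 <;> simp_all]; exact e2
    -- the pair is contained in `Z`
    have hfib : ∀ a ∈ Z', (l' a).1 = (l' p0).1 → a ∈ Z := by
      intro a ha hla
      by_contra hcon
      have e1 := hy1a a ha
      rw [hone0 a hcon, show l' a = ((l' p0).1, (l' a).2) from Prod.ext hla rfl, hy1p] at e1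
      exact one_ne_zero e1.symm
    let S : Set E := {a | a ∈ Z' ∧ (l' a).1 = (l' p0).1}
    have hSZ : S ⊆ Z := fun a ha => hfib a ha.1 ha.2
    have hpW : p ∈ W := (mem_sub.1 hp).1
    have hpS : ∀ a, a ∈ S → p a = 1 := fun a ha => by
      rw [hpa a ha.1]
      exact if_pos ha.2
    have hpS' : ∀ a, a ∉ S → p a = 0 := fun a ha => by
      by_cases haZ : a ∈ Z'
      · rw [hpa a haZ]
        exact if_neg (fun h => ha ⟨haZ, h⟩)
      · by_contra hcon
        exact haZ ((mem_sub.1 hp).2 a hcon)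
    -- every member of `sub W Z` is constant on `S`
    have hconst : ∀ x ∈ sub W Z, ∀ a ∈ S, x a = x p0 := by
      intro x hx a ha
      obtain ⟨y, c, hy, hxy⟩ := hlab x hx
      have hc := hc0 x hx y c hy hxy
      subst hc
      rw [hxy a ha.1, hxy p0 hp0']
      have e1 := hy (l' p0).1 hj
      have e2 : y ((l' p0).1, false) = y ((l' p0).1, true) := by
        rcases zmod2_cases (y ((l' p0).1, false)) with h | h <;>
          rcases zmod2_cases (y ((l' p0).1, true)) with h' | h' <;> rw [h, h'] at e1 ⊢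
        · exact absurd e1 (by decide)
        · exact absurd e1 (by decide)
      rw [show l' a = ((l' p0).1, (l' a).2) from Prod.ext ha.2 rfl,
        show l' p0 = ((l' p0).1, (l' p0).2) from rfl]
      cases (l' a).2 <;> cases (l' p0).2 <;> first | rfl | exact e2 | exact e2.symm
    have hsplit : Split W Z S := by
      intro x hx y hy1 hy2
      have : y = x p0 • p := by
        ext a
        rw [Finsupp.smul_apply, smul_eq_mul]
        by_cases ha : a ∈ S
        · rw [hy1 a ha, hpS a ha, hconst x hx a ha, mul_one]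
        · rw [hy2 a ha, hpS' a ha, mul_zero]
      rw [this]
      exact W.smul_mem _ hpW
    have hSeq := hB.conn hSZ ⟨p0, hp0', rfl⟩ hsplit
    apply hpq
    rw [hconst x0 hx0 p0 (by rw [hSeq]; exact hp0), hconst x0 hx0 q0 (by rw [hSeq]; exact hq0)]
  · subst hγ
    have hconst : ∀ x ∈ sub W Z, ∃ c, ∀ a ∈ Z, x a = c := by
      intro x hx
      obtain ⟨y, c, hy, hxy⟩ := hlab x hx
      refine ⟨c, fun a ha => ?_⟩
      have hi := h1' a (hsub ha)
      have e0 : y1 ((l' a).1, (l' a).2) = 1 := by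
        rw [show ((l' a).1, (l' a).2) = l' a from rfl, ← hy1a a (hsub ha)]
        exact hone1 a ha
      have e1 := hy1.other hi (l' a).2
      rw [e0] at e1
      have e2 : y1 ((l' a).1, !(l' a).2) = 0 := by
        rcases zmod2_cases (y1 ((l' a).1, !(l' a).2)) with h | h
        · exact h
        · rw [h] at e1; exact absurd e1 (by decide)
      have e3 := hmiss' _ _ hi e2 x hx y hxy
      have e4 := hy.other hi (l' a).2
      rw [e3, add_zero] at e4
      rw [hxy a (hsub ha)]
      exact e4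
    obtain ⟨c, hc⟩ := hconst x0 hx0
    apply hpq
    rw [hc p0 hp0, hc q0 hq0]

lemma Blk.anti' {W : Submodule (ZMod 2) (E →₀ ZMod 2)} {n m : ℕ} {Z Z' : Set E} (h : Blk W n Z)
    (h' : Blk W m Z') (hsub : Z ⊆ Z') : Z = Z' ∧ n = m := by
  have e := h.anti h' hsub
  refine ⟨e, ?_⟩
  have h1 := h.finrank_eq
  have h2 := h'.finrank_eq
  rw [e] at h1
  omega

end Pool.Agent.H209MF
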