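import Mathlib
import Pool.Agent.H209MF.Core

set_option autoImplicit false

namespace Pool.Agent.H209MF

open Finsupp Module

universe u v

variable {E : Type u} {E' : Type v}

/-- Total nullity of the first `N` reference blocks. -/
def R (N : ℕ) : ℕ := ∑ i ∈ Finset.range N, (i + 3)

lemma R_succ (N : ℕ) : R (N + 1) = R N + (N + 3) := Finset.sum_range_succ _ _

/-- `X` is the union of a finite covered set `A` of nullity `R N` and blocks `Z n`, `n ≥ N`. -/
structure Dat (W : Submodule (ZMod 2) (E →₀ ZMod 2)) (X : Set E) (N : ℕ) (A : Set E)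
    (Z : ℕ → Set E) : Prop where
  fin : A.Finite
  mem : ∀ a, a ∈ X ↔ a ∈ A ∨ ∃ n, N ≤ n ∧ a ∈ Z n
  disjA : ∀ n, N ≤ n → ∀ a ∈ A, a ∉ Z n
  disj : ∀ m n, N ≤ m → N ≤ n → m ≠ n → ∀ a ∈ Z m, a ∉ Z n
  blk : ∀ n, N ≤ n → Blk W n (Z n)
  split : ∀ n, N ≤ n → Split W X (Z n)
  rank : finrank (ZMod 2) (sub W A) = R N
  cover : ∀ a ∈ A, ∃ x ∈ sub W A, x a ≠ 0

def Good (W : Submodule (ZMod 2) (E →₀ ZMod 2)) (X : Set E) : Prop :=
  ∃ (N : ℕ) (A : Set E) (Z : ℕ → Set E), Dat W X N A Z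

lemma finrank_add {W : Submodule (ZMod 2) (E →₀ ZMod 2)} {X A Z : Set E} (hA : A.Finite)
    (hZ : Z.Finite) (hdis : ∀ a ∈ A, a ∉ Z) (hX : A ∪ Z ⊆ X) (hsp : Split W X Z) :
    finrank (ZMod 2) (sub W (A ∪ Z)) =
      finrank (ZMod 2) (sub W A) + finrank (ZMod 2) (sub W Z) := by
  classical
  have := sub_fd W hA
  have := sub_fd W hZ
  have h1 := Submodule.finrank_sup_add_finrank_inf_eq (sub W A) (sub W Z)
  have h2 : sub W A ⊓ sub W Z = ⊥ := by
    rw [eq_bot_iff]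
    rintro x ⟨hx1, hx2⟩
    rw [Submodule.mem_bot]
    ext a
    by_contra hne
    exact hdis a ((mem_sub.1 hx1).2 a hne) ((mem_sub.1 hx2).2 a hne)
  have h3 : sub W A ⊔ sub W Z = sub W (A ∪ Z) := by
    apply le_antisymm
    · exact sup_le (sub_mono W Set.subset_union_left) (sub_mono W Set.subset_union_right)
    · intro x hx
      have hx' := mem_sub.1 hx
      let y : E →₀ ZMod 2 := x.filter (· ∈ Z)
      have hy1 : ∀ a ∈ Z, y a = x a := fun a ha => Finsupp.filter_apply_pos _ _ ha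
      have hy2 : ∀ a, a ∉ Z → y a = 0 := fun a ha => Finsupp.filter_apply_neg _ _ ha
      have hyW : y ∈ W := hsp x (sub_mono W hX hx) y hy1 hy2
      rw [Submodule.mem_sup]
      refine ⟨x - y, ?_, y, ?_, sub_add_cancel _ _⟩
      · rw [mem_sub]
        refine ⟨W.sub_mem hx'.1 hyW, fun a ha => ?_⟩
        by_cases haZ : a ∈ Z
        · exact (ha (by rw [Finsupp.sub_apply, hy1 a haZ, sub_self])).elim
        · have : x a ≠ 0 := fun h0 => ha (by rw [Finsupp.sub_apply, hy2 a haZ, h0, sub_self])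
          exact (hx'.2 a this).resolve_right haZ
      · rw [mem_sub]
        refine ⟨hyW, fun a ha => ?_⟩
        by_contra haZ
        exact ha (hy2 a haZ)
  rw [h2, h3] at h1
  simpa using h1

lemma Dat.subX {W : Submodule (ZMod 2) (E →₀ ZMod 2)} {X A : Set E} {N : ℕ} {Z : ℕ → Set E}
    (h : Dat W X N A Z) {n : ℕ} (hn : N ≤ n) : Z n ⊆ X := fun a ha =>
  (h.mem a).2 (Or.inr ⟨n, hn, ha⟩)

lemma Dat.subA {W : Submodule (ZMod 2) (E →₀ ZMod 2)} {X A : Set E} {N : ℕ} {Z : ℕ → Set E}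
    (h : Dat W X N A Z) : A ⊆ X := fun a ha => (h.mem a).2 (Or.inl ha)

lemma Dat.step {W : Submodule (ZMod 2) (E →₀ ZMod 2)} {X A : Set E} {N : ℕ} {Z : ℕ → Set E}
    (h : Dat W X N A Z) : Dat W X (N + 1) (A ∪ Z N) Z where
  fin := h.fin.union (h.blk N le_rfl).1
  mem a := by
    rw [h.mem a]
    constructor
    · rintro (ha | ⟨n, hn, ha⟩)
      · exact Or.inl (Or.inl ha)
      · rcases Nat.eq_or_lt_of_le hn with rfl | hlt
        · exact Or.inl (Or.inr ha)
        · exact Or.inr ⟨n, hlt, ha⟩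
    · rintro ((ha | ha) | ⟨n, hn, ha⟩)
      · exact Or.inl ha
      · exact Or.inr ⟨N, le_rfl, ha⟩
      · exact Or.inr ⟨n, by omega, ha⟩
  disjA n hn a ha := by
    rcases ha with ha | ha
    · exact h.disjA n (by omega) a ha
    · exact h.disj N n le_rfl (by omega) (by omega) a ha
  disj m n hm hn hmn := h.disj m n (by omega) (by omega) hmn
  blk n hn := h.blk n (by omega)
  split n hn := h.split n (by omega)
  rank := by
    rw [finrank_add h.fin (h.blk N le_rfl).1 (h.disjA N le_rfl)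
      (Set.union_subset h.subA (h.subX le_rfl)) (h.split N le_rfl), h.rank,
      (h.blk N le_rfl).finrank_eq, R_succ]
  cover a ha := by
    rcases ha with ha | ha
    · obtain ⟨x, hx, hxa⟩ := h.cover a ha
      exact ⟨x, sub_mono W Set.subset_union_left hx, hxa⟩
    · obtain ⟨x, hx, hxa⟩ := (h.blk N le_rfl).cover a ha
      exact ⟨x, sub_mono W Set.subset_union_right hx, hxa⟩

lemma Dat.extend {W : Submodule (ZMod 2) (E →₀ ZMod 2)} {X A : Set E} {N : ℕ} {Z : ℕ → Set E}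
    (h : Dat W X N A Z) (K : ℕ) (hK : N ≤ K) : ∃ A', Dat W X K A' Z := by
  induction K, hK using Nat.le_induction with
  | base => exact ⟨A, h⟩
  | succ K hK ih =>
    obtain ⟨A', h'⟩ := ih
    exact ⟨_, h'.step⟩

lemma Dat.avoid {W : Submodule (ZMod 2) (E →₀ ZMod 2)} {X A : Set E} {N : ℕ} {Z : ℕ → Set E}
    (h : Dat W X N A Z) {Q : Set E} (hQ : Q.Finite) :
    ∀ᶠ n in Filter.atTop, ∀ q ∈ Q, q ∉ Z n := by
  rw [Filter.eventually_all_finite hQ]
  intro q _
  by_cases hq : ∃ n, N ≤ n ∧ q ∈ Z n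
  · obtain ⟨n, hn, hqn⟩ := hq
    filter_upwards [Filter.eventually_ge_atTop (n + 1)] with m hm
    exact h.disj n m hn (by omega) (by omega) q hqn
  · push Not at hq
    filter_upwards [Filter.eventually_ge_atTop N] with m hm
    exact hq m hm

lemma Dat.coverX {W : Submodule (ZMod 2) (E →₀ ZMod 2)} {X A : Set E} {N : ℕ} {Z : ℕ → Set E}
    (h : Dat W X N A Z) : ∀ a ∈ X, ∃ x ∈ sub W X, x a ≠ 0 := by
  intro a ha
  rcases (h.mem a).1 ha with ha | ⟨n, hn, ha⟩
  · obtain ⟨x, hx, hxa⟩ := h.cover a ha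
    exact ⟨x, sub_mono W h.subA hx, hxa⟩
  · obtain ⟨x, hx, hxa⟩ := (h.blk n hn).cover a ha
    exact ⟨x, sub_mono W (h.subX hn) hx, hxa⟩

/-- A block inside `Y` meeting the block `Z' m` is that block. -/
lemma Dat.blk_eq {W : Submodule (ZMod 2) (E →₀ ZMod 2)} {Y A' : Set E} {N' : ℕ} {Z' : ℕ → Set E}
    (h : Dat W Y N' A' Z') {n : ℕ} {B : Set E} (hB : Blk W n B) (hBY : B ⊆ Y) {m : ℕ}
    (hm : N' ≤ m) {a : E} (haB : a ∈ B) (haZ : a ∈ Z' m) : n = m ∧ B = Z' m := by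
  have hsp : Split W B (B ∩ Z' m) := by
    intro x hx y hy1 hy2
    have hx' := mem_sub.1 hx
    refine h.split m hm x (sub_mono W hBY hx) y (fun b hb => ?_) (fun b hb => ?_)
    · by_cases hbB : b ∈ B
      · exact hy1 b ⟨hbB, hb⟩
      · have hxb : x b = 0 := by
          by_contra hne
          exact hbB (hx'.2 b hne)
        rw [hxb]
        exact hy2 b (fun hh => hbB hh.1)
    · exact hy2 b (fun hh => hb hh.2)
  have h1 := hB.conn Set.inter_subset_left ⟨a, haB, haZ⟩ hsp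
  have h2 : B ⊆ Z' m := by
    rw [← h1]; exact Set.inter_subset_right
  have h3 := hB.anti' (h.blk m hm) h2
  exact ⟨h3.2, h3.1⟩

/-- First circuit axiom. -/
theorem Good.antichain {W : Submodule (ZMod 2) (E →₀ ZMod 2)} {X Y : Set E} (hX : Good W X)
    (hY : Good W Y) (hXY : X ⊆ Y) : X = Y := by
  obtain ⟨N, A, Z, h⟩ := hX
  obtain ⟨N', A', Z', h'⟩ := hY
  let K := N + N' + A'.ncard
  have hZ : ∀ n, K ≤ n → Z n = Z' n := by
    intro n hn
    have hnN : N ≤ n := by omega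
    have hB := h.blk n hnN
    -- `Z n` is not inside `A'`
    obtain ⟨a, ha, haA⟩ : ∃ a ∈ Z n, a ∉ A' := by
      by_contra hcon
      push Not at hcon
      have h1 := Set.ncard_le_ncard hcon h'.fin
      have h2 := hB.ncard_gt
      omega
    have haY : a ∈ Y := hXY (h.subX hnN ha)
    obtain ⟨m, hm, ham⟩ := ((h'.mem a).1 haY).resolve_left haA
    obtain ⟨hnm, hB'⟩ := h'.blk_eq hB ((h.subX hnN).trans hXY) hm ha ham
    rw [hB', hnm]
  obtain ⟨B, hB⟩ := h.extend K (by omega)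
  obtain ⟨B', hB'⟩ := h'.extend K (by omega)
  have hsub : B ⊆ B' := by
    intro a ha
    rcases (hB'.mem a).1 (hXY (hB.subA ha)) with h1 | ⟨n, hn, h1⟩
    · exact h1
    · rw [← hZ n hn] at h1
      exact (hB.disjA n hn a ha h1).elim
  have hBB : B = B' := by
    by_contra hne
    have h1 := finrank_lt_of_ne W hB'.fin hsub hB'.cover hne
    rw [hB.rank, hB'.rank] at h1
    omega
  ext a
  rw [hB.mem a, hB'.mem a, hBB]
  constructor
  · rintro (h1 | ⟨n, hn, h1⟩)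
    · exact Or.inl h1
    · exact Or.inr ⟨n, hn, by rw [← hZ n hn]; exact h1⟩
  · rintro (h1 | ⟨n, hn, h1⟩)
    · exact Or.inl h1
    · exact Or.inr ⟨n, hn, by rw [hZ n hn]; exact h1⟩

/-- Finitely many representatives modulo `sub W X`. -/
lemma exists_reps (W : Submodule (ZMod 2) (E →₀ ZMod 2)) (X : Set E) {S : Set E}
    (hS : S.Finite) :
    ∃ G : Set (E →₀ ZMod 2), G.Finite ∧ (∀ g ∈ G, g ∈ sub W (X ∪ S)) ∧
      ∀ x ∈ sub W (X ∪ S), ∃ g ∈ G, x - g ∈ sub W X := by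
  classical
  have := hS.to_subtype
  have := Fintype.ofFinite S
  let res : (E →₀ ZMod 2) → (S → ZMod 2) := fun x s => x s.1
  have hr : ∀ f : S → ZMod 2, ∃ g : E →₀ ZMod 2,
      g ∈ sub W (X ∪ S) ∧ ((∃ x ∈ sub W (X ∪ S), res x = f) → res g = f) := by
    intro f
    by_cases hf : ∃ x ∈ sub W (X ∪ S), res x = f
    · obtain ⟨x, hx, hxf⟩ := hf
      exact ⟨x, hx, fun _ => hxf⟩
    · exact ⟨0, Submodule.zero_mem _, fun h => (hf h).elim⟩
  choose g hg1 hg2 using hr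
  refine ⟨Set.range g, Set.finite_range g, ?_, ?_⟩
  · rintro _ ⟨f, rfl⟩
    exact hg1 f
  · intro x hx
    refine ⟨g (res x), ⟨_, rfl⟩, ?_⟩
    have h1 := hg2 (res x) ⟨x, hx, rfl⟩
    have h2 := mem_sub.1 (Submodule.sub_mem _ hx (hg1 (res x)))
    rw [mem_sub]
    refine ⟨h2.1, fun a ha => ?_⟩
    rcases h2.2 a ha with h3 | h3
    · exact h3
    · exfalso
      apply ha
      have := congrFun h1 ⟨a, h3⟩
      rw [Finsupp.sub_apply, sub_eq_zero]
      exact this.symm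

/-- Second circuit axiom. -/
theorem Good.elim {W : Submodule (ZMod 2) (E →₀ ZMod 2)} {X Y : Set E} (hX : Good W X)
    (hY : Good W Y) (hne : X ≠ Y) {e : E} (heX : e ∈ X) :
    ∃ T, Good W T ∧ T ⊆ (X ∪ Y) \ {e} := by
  classical
  have hnot : ¬ Y ⊆ X := fun h => hne (hY.antichain hX h).symm
  obtain ⟨f, hfY, hfX⟩ := Set.not_subset.1 hnot
  obtain ⟨N, A, Z, h⟩ := hX
  obtain ⟨N', A', Z', h'⟩ := hY
  obtain ⟨x0, hx0, hx0f⟩ := h'.coverX f hfY
  have hx0' := mem_sub.1 hx0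
  let S : Set E := {a | x0 a ≠ 0}
  have hSf : S.Finite := by
    have : S = (x0.support : Set E) := by ext a; simp [S]
    rw [this]; exact Finset.finite_toSet _
  have hSY : S ⊆ Y := fun a ha => hx0'.2 a ha
  obtain ⟨G, hGf, hG1, hG2⟩ := exists_reps W X hSf
  have hQf : (⋃ g ∈ G, {a | (g : E →₀ ZMod 2) a ≠ 0}).Finite := by
    apply hGf.biUnion
    intro g _
    have : {a | g a ≠ 0} = (g.support : Set E) := by ext a; simp
    rw [this]; exact Finset.finite_toSet _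
  obtain ⟨K, hK⟩ : ∃ K, ∀ n, K ≤ n → N ≤ n ∧ (∀ q ∈ S, q ∉ Z n) ∧
      (∀ q ∈ (⋃ g ∈ G, {a | (g : E →₀ ZMod 2) a ≠ 0}), q ∉ Z n) ∧ (∀ q ∈ ({e} : Set E), q ∉ Z n) := by
    have := (Filter.eventually_ge_atTop N).and ((h.avoid hSf).and ((h.avoid hQf).and
      (h.avoid (Set.finite_singleton e))))
    exact Filter.eventually_atTop.1 this
  obtain ⟨B, hB⟩ := h.extend K (hK K le_rfl).1
  have heB : e ∈ B := by
    rcases (hB.mem e).1 heX with h1 | ⟨n, hn, h1⟩
    · exact h1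
    · exact ((hK n hn).2.2.2 e rfl h1).elim
  have hBSf : (B ∪ S).Finite := hB.fin.union hSf
  have hlt : finrank (ZMod 2) (sub W B) < finrank (ZMod 2) (sub W (B ∪ S)) := by
    have := sub_fd W hBSf
    apply Submodule.finrank_lt_finrank_of_lt
    refine lt_of_le_of_ne (sub_mono W Set.subset_union_left) ?_
    intro heq
    have hx1 : x0 ∈ sub W (B ∪ S) := mem_sub.2 ⟨hx0'.1, fun a ha => Or.inr ha⟩
    rw [← heq] at hx1
    exact hfX (hB.subA ((mem_sub.1 hx1).2 f hx0f))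
  have hge : R K ≤ finrank (ZMod 2) (sub W ((B ∪ S) \ {e})) := by
    have h1 := (finrank_remove W hBSf e).1
    rw [hB.rank] at hlt
    omega
  obtain ⟨A'', hA''sub, hA''r, hA''c⟩ := exists_core W (hBSf.subset Set.sdiff_subset) (R K) hge
  let T : Set E := {a | a ∈ A'' ∨ ∃ n, K ≤ n ∧ a ∈ Z n}
  have hTXS : T ⊆ X ∪ S := by
    rintro a (ha | ⟨n, hn, ha⟩)
    · rcases (hA''sub ha).1 with h1 | h1
      · exact Or.inl (hB.subA h1)
      · exact Or.inr h1
    · exact Or.inl (hB.subX hn ha)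
  refine ⟨T, ⟨K, A'', Z, ?_⟩, ?_⟩
  · refine ⟨hBSf.subset (hA''sub.trans Set.sdiff_subset), fun a => Iff.rfl, ?_,
      hB.disj, hB.blk, ?_, hA''r, hA''c⟩
    · intro n hn a ha
      rcases (hA''sub ha).1 with h1 | h1
      · exact hB.disjA n hn a h1
      · exact (hK n hn).2.1 a h1
    · intro n hn x hx y hy1 hy2
      obtain ⟨g, hg, hxg⟩ := hG2 x (sub_mono W hTXS hx)
      apply hB.split n hn (x - g) hxg y (fun a ha => ?_) hy2
      have hga : g a = 0 := by
        by_contra hne'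
        exact (hK n hn).2.2.1 a (Set.mem_biUnion hg hne') ha
      rw [hy1 a ha, Finsupp.sub_apply, hga, sub_zero]
  · rintro a (ha | ⟨n, hn, ha⟩)
    · refine ⟨?_, (hA''sub ha).2⟩
      rcases (hA''sub ha).1 with h1 | h1
      · exact Or.inl (hB.subA h1)
      · exact Or.inr (hSY h1)
    · refine ⟨Or.inl (hB.subX hn ha), ?_⟩
      intro hae
      exact (hK n hn).2.2.2 a hae ha

end Pool.Agent.H209MF
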