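import Mathlib
import Pool.Agent.H209MF.Good

set_option autoImplicit false

namespace Pool.Agent.H209MF

open Finsupp Module

universe u v

variable {E : Type u} {E' : Type v}

/-- `W'` on `F'` is the series extension of `W` along `π`. -/
structure Ext (W : Submodule (ZMod 2) (E →₀ ZMod 2)) (W' : Submodule (ZMod 2) (E' →₀ ZMod 2))
    (F' : Set E') (π : E' → E) : Prop where
  surj : ∀ a, ∃ a' ∈ F', π a' = a
  fin : ∀ a, {a' | a' ∈ F' ∧ π a' = a}.Finite
  iff : ∀ x' : E' →₀ ZMod 2, (∀ a', x' a' ≠ 0 → a' ∈ F') →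
    (x' ∈ W' ↔ ∃ x ∈ W, ∀ a' ∈ F', x' a' = x (π a'))

/-- Preimage of a set. -/
def Pre (F' : Set E') (π : E' → E) (S : Set E) : Set E' := {a' | a' ∈ F' ∧ π a' ∈ S}

variable {W : Submodule (ZMod 2) (E →₀ ZMod 2)} {W' : Submodule (ZMod 2) (E' →₀ ZMod 2)}
  {F' : Set E'} {π : E' → E}

lemma Ext.pre_fin (h : Ext W W' F' π) {S : Set E} (hS : S.Finite) : (Pre F' π S).Finite := by
  have : Pre F' π S = ⋃ a ∈ S, {a' | a' ∈ F' ∧ π a' = a} := by
    ext a'
    simp only [Pre, Set.mem_ofPred_eq, Set.mem_iUnion, exists_prop]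
    constructor
    · rintro ⟨h1, h2⟩
      exact ⟨_, h2, h1, rfl⟩
    · rintro ⟨a, h1, h2, rfl⟩
      exact ⟨h2, h1⟩
  rw [this]
  exact hS.biUnion fun a _ => h.fin a

lemma Ext.exists_pull (h : Ext W W' F' π) (x : E →₀ ZMod 2) :
    ∃ x' : E' →₀ ZMod 2, (∀ a' ∈ F', x' a' = x (π a')) ∧ ∀ a', x' a' ≠ 0 → a' ∈ F' := by
  classical
  have hf : (Pre F' π {a | x a ≠ 0}).Finite := by
    apply h.pre_fin
    have : {a | x a ≠ 0} = (x.support : Set E) := by ext a; simp
    rw [this]; exact Finset.finite_toSet _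
  refine ⟨Finsupp.onFinset hf.toFinset (fun a' => if a' ∈ F' then x (π a') else 0) ?_, ?_, ?_⟩
  · intro a' ha'
    rw [Set.Finite.mem_toFinset]
    by_cases h1 : a' ∈ F'
    · rw [if_pos h1] at ha'
      exact ⟨h1, ha'⟩
    · rw [if_neg h1] at ha'
      exact (ha' rfl).elim
  · intro a' ha'
    exact if_pos ha'
  · intro a' ha'
    by_contra h1
    exact ha' (if_neg h1)

noncomputable def Ext.pull (h : Ext W W' F' π) (x : E →₀ ZMod 2) : E' →₀ ZMod 2 :=
  (h.exists_pull x).choose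

lemma Ext.pull_apply (h : Ext W W' F' π) (x : E →₀ ZMod 2) {a' : E'} (ha : a' ∈ F') :
    h.pull x a' = x (π a') := (h.exists_pull x).choose_spec.1 a' ha

lemma Ext.pull_supp (h : Ext W W' F' π) (x : E →₀ ZMod 2) {a' : E'} (ha : h.pull x a' ≠ 0) :
    a' ∈ F' := (h.exists_pull x).choose_spec.2 a' ha

lemma Ext.pull_notMem (h : Ext W W' F' π) (x : E →₀ ZMod 2) {a' : E'} (ha : a' ∉ F') :
    h.pull x a' = 0 := by
  by_contra hne
  exact ha (h.pull_supp x hne)

lemma Ext.pull_mem (h : Ext W W' F' π) {x : E →₀ ZMod 2} : h.pull x ∈ W' ↔ x ∈ W := by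
  rw [h.iff _ (fun a' => h.pull_supp x)]
  constructor
  · rintro ⟨x2, hx2, h2⟩
    have : x = x2 := by
      ext a
      obtain ⟨a', ha', rfl⟩ := h.surj a
      rw [← h.pull_apply x ha']
      exact h2 a' ha'
    rw [this]; exact hx2
  · intro hx
    exact ⟨x, hx, fun a' ha' => h.pull_apply x ha'⟩

lemma Ext.pull_mem_sub (h : Ext W W' F' π) {x : E →₀ ZMod 2} {S : Set E} :
    h.pull x ∈ sub W' (Pre F' π S) ↔ x ∈ sub W S := by
  rw [mem_sub, mem_sub, h.pull_mem]
  refine and_congr_right fun _ => ⟨fun h1 a ha => ?_, fun h1 a' ha' => ?_⟩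
  · obtain ⟨a', ha', rfl⟩ := h.surj a
    exact (h1 a' (by rw [h.pull_apply x ha']; exact ha)).2
  · have h2 := h.pull_supp x ha'
    refine ⟨h2, h1 _ ?_⟩
    rw [← h.pull_apply x h2]
    exact ha'

/-- Members of `W'` supported on `F'` are pulled back from `W`. -/
lemma Ext.exists_eq_pull (h : Ext W W' F' π) {x' : E' →₀ ZMod 2} (hx' : x' ∈ W')
    (hs : ∀ a', x' a' ≠ 0 → a' ∈ F') : ∃ x ∈ W, x' = h.pull x := by
  obtain ⟨x, hx, h1⟩ := (h.iff x' hs).1 hx'
  refine ⟨x, hx, ?_⟩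
  ext a'
  by_cases ha : a' ∈ F'
  · rw [h1 a' ha, h.pull_apply x ha]
  · rw [h.pull_notMem x ha]
    by_contra hne
    exact ha (hs a' hne)

lemma Ext.exists_eq_pull_sub (h : Ext W W' F' π) {x' : E' →₀ ZMod 2} {S : Set E}
    (hx' : x' ∈ sub W' (Pre F' π S)) : ∃ x ∈ sub W S, x' = h.pull x := by
  obtain ⟨x, hx, rfl⟩ := h.exists_eq_pull (mem_sub.1 hx').1 (fun a' ha' => ((mem_sub.1 hx').2 a' ha').1)
  exact ⟨x, h.pull_mem_sub.1 hx', rfl⟩

lemma Ext.finrank_eq (h : Ext W W' F' π) (S : Set E) :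
    finrank (ZMod 2) (sub W S) = finrank (ZMod 2) (sub W' (Pre F' π S)) := by
  let φ : sub W S →ₗ[ZMod 2] sub W' (Pre F' π S) :=
    { toFun := fun x => ⟨h.pull x.1, h.pull_mem_sub.2 x.2⟩
      map_add' := by
        intro x y
        apply Subtype.ext
        ext a'
        show h.pull (x.1 + y.1) a' = h.pull x.1 a' + h.pull y.1 a'
        by_cases ha : a' ∈ F'
        · rw [h.pull_apply _ ha, h.pull_apply _ ha, h.pull_apply _ ha, Finsupp.add_apply]
        · rw [h.pull_notMem _ ha, h.pull_notMem _ ha, h.pull_notMem _ ha, add_zero]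
      map_smul' := by
        intro c x
        apply Subtype.ext
        ext a'
        show h.pull (c • x.1) a' = c * h.pull x.1 a'
        by_cases ha : a' ∈ F'
        · rw [h.pull_apply _ ha, h.pull_apply _ ha, Finsupp.smul_apply, smul_eq_mul]
        · rw [h.pull_notMem _ ha, h.pull_notMem _ ha, mul_zero] }
  have hbij : Function.Bijective φ := by
    constructor
    · rintro ⟨x, hx⟩ ⟨y, hy⟩ hxy
      have hxy' : h.pull x = h.pull y := congrArg Subtype.val hxy
      apply Subtype.ext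
      show x = y
      ext a
      obtain ⟨a', ha', rfl⟩ := h.surj a
      rw [← h.pull_apply x ha', hxy', h.pull_apply y ha']
    · rintro ⟨x', hx'⟩
      obtain ⟨x, hx, rfl⟩ := h.exists_eq_pull_sub hx'
      exact ⟨⟨x, hx⟩, rfl⟩
  exact (LinearEquiv.ofBijective φ hbij).finrank_eq

lemma Ext.pre_image (h : Ext W W' F' π) {B : Set E'} (hB : B ⊆ F')
    (hc : ∀ a ∈ B, ∃ x ∈ sub W' B, x a ≠ 0) : Pre F' π (π '' B) = B := by
  ext b
  constructor
  · rintro ⟨hb, a, ha, hab⟩
    obtain ⟨x', hx', hxa⟩ := hc a ha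
    have hx2 := mem_sub.1 hx'
    obtain ⟨x, hx, rfl⟩ := h.exists_eq_pull hx2.1 (fun a' ha' => hB (hx2.2 a' ha'))
    apply hx2.2
    rw [h.pull_apply x hb, ← hab, ← h.pull_apply x (hB ha)]
    exact hxa
  · intro hb
    exact ⟨hB hb, b, hb, rfl⟩

lemma Ext.split_iff (h : Ext W W' F' π) (Z : Set E) :
    Split W Set.univ Z ↔ Split W' F' (Pre F' π Z) := by
  constructor
  · intro hs x' hx' y' hy1 hy2
    have hx2 := mem_sub.1 hx'
    obtain ⟨x, hx, rfl⟩ := h.exists_eq_pull hx2.1 hx2.2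
    classical
    let y : E →₀ ZMod 2 := x.filter (· ∈ Z)
    have e1 : ∀ a ∈ Z, y a = x a := fun a ha => Finsupp.filter_apply_pos _ _ ha
    have e2 : ∀ a, a ∉ Z → y a = 0 := fun a ha => Finsupp.filter_apply_neg _ _ ha
    have hy : y ∈ W := hs x (mem_sub.2 ⟨hx, fun _ _ => trivial⟩) y e1 e2
    have : y' = h.pull y := by
      ext a'
      by_cases ha : a' ∈ F'
      · rw [h.pull_apply y ha]
        by_cases haZ : π a' ∈ Z
        · rw [e1 _ haZ, hy1 a' ⟨ha, haZ⟩, h.pull_apply x ha]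
        · rw [e2 _ haZ, hy2 a' (fun hh => haZ hh.2)]
      · rw [h.pull_notMem y ha, hy2 a' (fun hh => ha hh.1)]
    rw [this, h.pull_mem]
    exact hy
  · intro hs x hx y hy1 hy2
    have hx2 := mem_sub.1 hx
    rw [← h.pull_mem]
    apply hs (h.pull x) (mem_sub.2 ⟨h.pull_mem.2 hx2.1, fun a' => h.pull_supp x⟩)
    · intro a' ha'
      rw [h.pull_apply y ha'.1, h.pull_apply x ha'.1]
      exact hy1 _ ha'.2
    · intro a' ha'
      by_cases ha : a' ∈ F'
      · rw [h.pull_apply y ha]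
        exact hy2 _ (fun hh => ha' ⟨ha, hh⟩)
      · exact h.pull_notMem y ha

lemma Ext.blk_iff (h : Ext W W' F' π) (n : ℕ) (Z : Set E) :
    Blk W n Z ↔ Blk W' n (Pre F' π Z) := by
  classical
  constructor
  · rintro ⟨hf, l, h1, h2, hl⟩
    refine ⟨h.pre_fin hf, fun a' => l (π a'), fun a' ha' => h1 _ ha'.2, ?_, ?_⟩
    · intro p hp
      obtain ⟨a, ha, hla⟩ := h2 p hp
      obtain ⟨a', ha', rfl⟩ := h.surj a
      exact ⟨a', ⟨ha', ha⟩, hla⟩
    · intro x' hx'
      constructor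
      · intro hW'
        obtain ⟨x, hx, rfl⟩ := h.exists_eq_pull_sub (mem_sub.2 ⟨hW', hx'⟩)
        have hx2 := mem_sub.1 hx
        obtain ⟨y, c, hy, hxy⟩ := (hl x hx2.2).1 hx2.1
        exact ⟨y, c, hy, fun a' ha' => by rw [h.pull_apply x ha'.1]; exact hxy _ ha'.2⟩
      · rintro ⟨y, c, hy, hxy⟩
        obtain ⟨x, hx, hxa⟩ := exists_elt hf hl y c hy
        have : x' = h.pull x := by
          ext a'
          by_cases ha : a' ∈ F'
          · rw [h.pull_apply x ha]
            by_cases haZ : π a' ∈ Z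
            · rw [hxa _ haZ]
              exact hxy a' ⟨ha, haZ⟩
            · have e1 : x (π a') = 0 := by
                by_contra hne
                exact haZ ((mem_sub.1 hx).2 _ hne)
              rw [e1]
              by_contra hne
              exact haZ (hx' a' hne).2
          · rw [h.pull_notMem x ha]
            by_contra hne
            exact ha (hx' a' hne).1
        rw [this, h.pull_mem]
        exact (mem_sub.1 hx).1
  · rintro ⟨hf, l, h1, h2, hl⟩
    choose s hs1 hs2 using h.surj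
    have hZs : ∀ a ∈ Z, s a ∈ Pre F' π Z := fun a ha => ⟨hs1 a, by rw [hs2 a]; exact ha⟩
    -- labels are constant on the fibres of `π`
    have hsep : ∀ a' ∈ Pre F' π Z, ∀ b' ∈ Pre F' π Z, π a' = π b' → l a' = l b' := by
      intro a' ha' b' hb' hab
      have hpi : ∀ x' ∈ sub W' (Pre F' π Z), x' a' = x' b' := by
        intro x' hx'
        obtain ⟨x, hx, rfl⟩ := h.exists_eq_pull_sub hx'
        rw [h.pull_apply x ha'.1, h.pull_apply x hb'.1, hab]
      have e1 : (l a').1 = (l b').1 := by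
        obtain ⟨x', hx', hxa⟩ := exists_elt hf hl _ _ (bal_pair n (l a').1)
        have := hpi x' hx'
        rw [hxa a' ha', hxa b' hb'] at this
        by_contra hne
        simp only [if_true] at this
        rw [if_neg (fun hh => hne hh.symm)] at this
        exact one_ne_zero this
      have e2 : (l a').2 = (l b').2 := by
        obtain ⟨x', hx', hxa⟩ := exists_elt hf hl _ _ (bal_trans n (fun _ => (l a').2))
        have := hpi x' hx'
        rw [hxa a' ha', hxa b' hb'] at this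
        by_contra hne
        simp only [if_true] at this
        rw [if_neg (fun hh => hne hh.symm)] at this
        exact one_ne_zero this
      exact Prod.ext e1 e2
    refine ⟨?_, fun a => l (s a), fun a ha => h1 _ (hZs a ha), ?_, ?_⟩
    · apply (hf.image π).subset
      intro a ha
      exact ⟨s a, hZs a ha, hs2 a⟩
    · intro p hp
      obtain ⟨a', ha', hla⟩ := h2 p hp
      refine ⟨π a', ha'.2, ?_⟩
      rw [← hla]
      exact hsep _ (hZs _ ha'.2) _ ha' (hs2 _)
    · intro x hx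
      have hpx : ∀ a', h.pull x a' ≠ 0 → a' ∈ Pre F' π Z := by
        intro a' ha'
        have h3 := h.pull_supp x ha'
        refine ⟨h3, hx _ ?_⟩
        rw [← h.pull_apply x h3]; exact ha'
      rw [← h.pull_mem, hl _ hpx]
      constructor
      · rintro ⟨y, c, hy, hxy⟩
        refine ⟨y, c, hy, fun a ha => ?_⟩
        rw [← hxy _ (hZs a ha), h.pull_apply x (hs1 a), hs2]
      · rintro ⟨y, c, hy, hxy⟩
        refine ⟨y, c, hy, fun a' ha' => ?_⟩
        rw [h.pull_apply x ha'.1, hxy _ ha'.2]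
        show y (l (s (π a'))) = y (l a')
        rw [hsep _ (hZs _ ha'.2) _ ha' (hs2 _)]

lemma Ext.good_of (h : Ext W W' F' π) (hg : Good W Set.univ) : Good W' F' := by
  obtain ⟨N, A, Z, hd⟩ := hg
  refine ⟨N, Pre F' π A, fun n => Pre F' π (Z n), h.pre_fin hd.fin, ?_, ?_, ?_, ?_, ?_, ?_, ?_⟩
  · intro a'
    constructor
    · intro ha'
      rcases (hd.mem (π a')).1 trivial with h1 | ⟨n, hn, h1⟩
      · exact Or.inl ⟨ha', h1⟩
      · exact Or.inr ⟨n, hn, ha', h1⟩
    · rintro (h1 | ⟨n, hn, h1⟩)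
      · exact h1.1
      · exact h1.1
  · intro n hn a ha ha2
    exact hd.disjA n hn _ ha.2 ha2.2
  · intro m n hm hn hmn a ha ha2
    exact hd.disj m n hm hn hmn _ ha.2 ha2.2
  · intro n hn
    exact (h.blk_iff n _).1 (hd.blk n hn)
  · intro n hn
    exact (h.split_iff _).1 (hd.split n hn)
  · rw [← h.finrank_eq]
    exact hd.rank
  · intro a' ha'
    obtain ⟨x, hx, hxa⟩ := hd.cover _ ha'.2
    exact ⟨h.pull x, h.pull_mem_sub.2 hx, by rw [h.pull_apply x ha'.1]; exact hxa⟩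

lemma Ext.good_back (h : Ext W W' F' π) (hg : Good W' F') : Good W Set.univ := by
  obtain ⟨N, A, Z, hd⟩ := hg
  have hA : Pre F' π (π '' A) = A := h.pre_image hd.subA hd.cover
  have hZ : ∀ n, N ≤ n → Pre F' π (π '' (Z n)) = Z n := fun n hn =>
    h.pre_image (hd.subX hn) (hd.blk n hn).cover
  refine ⟨N, π '' A, fun n => π '' (Z n), hd.fin.image π, ?_, ?_, ?_, ?_, ?_, ?_, ?_⟩
  · intro a
    refine ⟨fun _ => ?_, fun _ => trivial⟩
    obtain ⟨a', ha', rfl⟩ := h.surj a
    rcases (hd.mem a').1 ha' with h1 | ⟨n, hn, h1⟩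
    · exact Or.inl ⟨a', h1, rfl⟩
    · exact Or.inr ⟨n, hn, a', h1, rfl⟩
  · rintro n hn _ ⟨a', ha', rfl⟩ hmem
    have : a' ∈ Pre F' π (π '' (Z n)) := ⟨hd.subA ha', hmem⟩
    rw [hZ n hn] at this
    exact hd.disjA n hn a' ha' this
  · rintro m n hm hn hmn _ ⟨a', ha', rfl⟩ hmem
    have : a' ∈ Pre F' π (π '' (Z n)) := ⟨hd.subX hm ha', hmem⟩
    rw [hZ n hn] at this
    exact hd.disj m n hm hn hmn a' ha' this
  · intro n hn
    have := hd.blk n hn
    rw [← hZ n hn] at this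
    exact (h.blk_iff n _).2 this
  · intro n hn
    have := hd.split n hn
    rw [← hZ n hn] at this
    exact (h.split_iff _).2 this
  · rw [h.finrank_eq, hA]
    exact hd.rank
  · rintro _ ⟨a', ha', rfl⟩
    obtain ⟨x', hx', hxa⟩ := hd.cover a' ha'
    rw [← hA] at hx'
    obtain ⟨x, hx, rfl⟩ := h.exists_eq_pull_sub hx'
    exact ⟨x, hx, by rw [← h.pull_apply x (hd.subA ha')]; exact hxa⟩

/-- Some block of type `n` splits off. -/
def HasBlk (W : Submodule (ZMod 2) (E →₀ ZMod 2)) (X : Set E) (n : ℕ) : Prop :=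
  ∃ Z ⊆ X, Blk W n Z ∧ Split W X Z

lemma Ext.hasBlk_iff (h : Ext W W' F' π) (n : ℕ) : HasBlk W Set.univ n ↔ HasBlk W' F' n := by
  constructor
  · rintro ⟨Z, _, h1, h2⟩
    exact ⟨Pre F' π Z, fun a ha => ha.1, (h.blk_iff n Z).1 h1, (h.split_iff Z).1 h2⟩
  · rintro ⟨Z, hZ, h1, h2⟩
    have hZ' := h.pre_image hZ h1.cover
    rw [← hZ'] at h1 h2
    exact ⟨_, Set.subset_univ _, (h.blk_iff n _).2 h1, (h.split_iff _).2 h2⟩

end Pool.Agent.H209MF
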