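import Mathlib
import Pool.Agent.H209MF.Transport

set_option autoImplicit false

namespace Pool.Agent.H209MF

open Finsupp Module

universe u v w x

variable {V : Type u} {E : Type v}

/-- The `i`-th vertex of the path that replaces the edge `e` (`0 ≤ i ≤ k e + 1`); the numbers
`0` and `k e + 1` give the two ends of `e`, the others give the new inner vertices. -/
noncomputable def pathVertex (ends : E → Sym2 V) (k : E → ℕ) (e : E) (i : ℕ) :
    V ⊕ (Σ e : E, Fin (k e)) :=
  if i = 0 then Sum.inl (Quot.out (ends e)).1
  else if h : i - 1 < k e then Sum.inr ⟨e, ⟨i - 1, h⟩⟩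
  else Sum.inl (Quot.out (ends e)).2

/-- The ends of the edges of the path that replaces an edge. -/
noncomputable def pathEnds (ends : E → Sym2 V) (k : E → ℕ) (q : Σ e : E, Fin (k e + 1)) :
    Sym2 (V ⊕ (Σ e : E, Fin (k e))) :=
  s(pathVertex ends k q.1 q.2.1, pathVertex ends k q.1 (q.2.1 + 1))

section cyc

/-- The boundary of an edge, modulo 2. -/
noncomputable def bdry (s : Sym2 V) : V →₀ ZMod 2 :=
  Sym2.lift ⟨fun a b => single a 1 + single b 1, fun _ _ => add_comm _ _⟩ s

@[simp] lemma bdry_mk (a b : V) :
    bdry s(a, b) = single a (1 : ZMod 2) + single b 1 := rfl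

lemma bdry_map {V' : Type w} (f : V → V') (s : Sym2 V) :
    bdry (s.map f) = Finsupp.mapDomain f (bdry s) := by
  induction s using Sym2.ind with
  | _ a b => simp [Finsupp.mapDomain_add, Finsupp.mapDomain_single]

/-- The boundary map. -/
noncomputable def dd (ends : E → Sym2 V) : (E →₀ ZMod 2) →ₗ[ZMod 2] (V →₀ ZMod 2) :=
  Finsupp.linearCombination (ZMod 2) (fun e => bdry (ends e))

/-- The cycle space. -/
noncomputable def cyc (ends : E → Sym2 V) : Submodule (ZMod 2) (E →₀ ZMod 2) :=
  LinearMap.ker (dd ends)

lemma dd_single (ends : E → Sym2 V) (e : E) (c : ZMod 2) :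
    dd ends (single e c) = c • bdry (ends e) := by
  simp [dd]

lemma mem_cyc {ends : E → Sym2 V} {x : E →₀ ZMod 2} : x ∈ cyc ends ↔ dd ends x = 0 :=
  LinearMap.mem_ker

lemma dd_mapDomain {V' : Type w} {E' : Type x} {ends : E → Sym2 V} {ends' : E' → Sym2 V'}
    (fV : V → V') (fE : E → E')
    (h : ∀ e, ends' (fE e) = (ends e).map fV) (x : E →₀ ZMod 2) :
    dd ends' (Finsupp.mapDomain fE x) = Finsupp.mapDomain fV (dd ends x) := by
  induction x using Finsupp.induction_linear with
  | zero => simp
  | add x y hx hy => rw [Finsupp.mapDomain_add, map_add, map_add, Finsupp.mapDomain_add, hx, hy]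
  | single e c =>
    rw [Finsupp.mapDomain_single, dd_single, dd_single, h, bdry_map, Finsupp.mapDomain_smul]

lemma ext_copy {V' : Type w} {E' : Type x} {ends : E → Sym2 V} {ends' : E' → Sym2 V'}
    [Nonempty E] {fV : V → V'}
    {fE : E → E'} (hV : Function.Injective fV) (hE : Function.Injective fE)
    (h : ∀ e, ends' (fE e) = (ends e).map fV) :
    Ext (cyc ends) (cyc ends') (Set.range fE) (Function.invFun fE) where
  surj a := ⟨fE a, ⟨a, rfl⟩, Function.leftInverse_invFun hE a⟩
  fin a := by
    apply (Set.finite_singleton (fE a)).subset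
    rintro _ ⟨⟨b, rfl⟩, hb⟩
    rw [Function.leftInverse_invFun hE b] at hb
    rw [hb]; rfl
  iff x' hx' := by
    have hsub : (x'.support : Set E') ⊆ Set.range fE := by
      intro a ha
      exact hx' a (by simpa using ha)
    have key : ∀ x : E →₀ ZMod 2, Finsupp.mapDomain fE x ∈ cyc ends' ↔ x ∈ cyc ends := by
      intro x
      rw [mem_cyc, mem_cyc, dd_mapDomain fV fE h]
      constructor
      · intro h0
        apply Finsupp.mapDomain_injective hV
        rw [h0, Finsupp.mapDomain_zero]
      · intro h0
        rw [h0, Finsupp.mapDomain_zero]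
    constructor
    · intro hx
      have e1 : Finsupp.mapDomain fE (Finsupp.comapDomain fE x' hE.injOn) = x' :=
        Finsupp.mapDomain_comapDomain fE hE x' hsub
      refine ⟨Finsupp.comapDomain fE x' hE.injOn, ?_, ?_⟩
      · rw [← key, e1]; exact hx
      · rintro _ ⟨a, rfl⟩
        rw [Function.leftInverse_invFun hE a]
        rfl
    · rintro ⟨x, hx, h1⟩
      have : x' = Finsupp.mapDomain fE x := by
        ext a'
        by_cases ha : a' ∈ Set.range fE
        · obtain ⟨a, rfl⟩ := ha
          rw [h1 _ ⟨a, rfl⟩, Function.leftInverse_invFun hE a, Finsupp.mapDomain_apply hE]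
        · rw [Finsupp.mapDomain_of_notMem_range _ _ ha]
          by_contra hne
          exact ha (hx' a' hne)
      rw [this, key]
      exact hx

end cyc

section subdiv

variable (ends : E → Sym2 V) (k : E → ℕ)

lemma telescope {M : Type w} [AddCommGroup M] [Module (ZMod 2) M] (f : ℕ → M) (n : ℕ) :
    ∑ i ∈ Finset.range n, (f i + f (i + 1)) = f 0 + f n := by
  have h2 : ∀ m : M, m + m = 0 := fun m => by
    have : ((1 : ZMod 2) + 1) • m = 0 := by
      rw [show (1 : ZMod 2) + 1 = 0 by decide, zero_smul]
    rwa [add_smul, one_smul] at this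
  induction n with
  | zero => simp [h2]
  | succ n ih =>
    rw [Finset.sum_range_succ, ih]
    have := h2 (f n)
    calc f 0 + f n + (f n + f (n + 1)) = f 0 + (f n + f n) + f (n + 1) := by abel
      _ = _ := by rw [this, add_zero]

/-- The pull-back along the subdivision. -/
noncomputable def pl : (E →₀ ZMod 2) →ₗ[ZMod 2] ((Σ e : E, Fin (k e + 1)) →₀ ZMod 2) :=
  Finsupp.linearCombination (ZMod 2)
    (fun e => ∑ i : Fin (k e + 1), (single (⟨e, i⟩ : Σ e : E, Fin (k e + 1)) (1 : ZMod 2)))

lemma pl_single (a : E) (c : ZMod 2) : pl k (single a c) =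
    c • ∑ i : Fin (k a + 1), (single (⟨a, i⟩ : Σ e : E, Fin (k e + 1)) (1 : ZMod 2)) := by
  simp [pl]

lemma pl_apply (x : E →₀ ZMod 2) (e : E) (i : Fin (k e + 1)) :
    pl k x ⟨e, i⟩ = x e := by
  classical
  induction x using Finsupp.induction_linear with
  | zero => simp
  | add x y hx hy => rw [map_add, Finsupp.add_apply, hx, hy, Finsupp.add_apply]
  | single a c =>
    rw [pl_single, Finsupp.smul_apply, Finsupp.finsetSum_apply, smul_eq_mul]
    by_cases hae : a = e
    · subst hae
      rw [Finset.sum_eq_single i]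
      · simp
      · intro j _ hj
        rw [Finsupp.single_apply, if_neg]
        intro h
        apply hj
        simpa using h
      · simp
    · rw [Finset.sum_eq_zero, Finsupp.single_apply, if_neg hae, mul_zero]
      intro j _
      rw [Finsupp.single_apply, if_neg]
      intro h
      exact hae (by simpa using congrArg Sigma.fst h)

lemma dd_pl (x : E →₀ ZMod 2) :
    dd (pathEnds ends k) (pl k x) = Finsupp.mapDomain Sum.inl (dd ends x) := by
  classical
  induction x using Finsupp.induction_linear with
  | zero => simp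
  | add x y hx hy => rw [map_add, map_add, hx, hy, map_add, Finsupp.mapDomain_add]
  | single a c =>
    rw [pl_single, map_smul, map_sum, dd_single, Finsupp.mapDomain_smul]
    congr 1
    have h1 : ∀ i : Fin (k a + 1), dd (pathEnds ends k)
        (single (⟨a, i⟩ : Σ e : E, Fin (k e + 1)) (1 : ZMod 2)) =
        single (pathVertex ends k a i.1) 1 + single (pathVertex ends k a (i.1 + 1)) 1 := by
      intro i
      rw [dd_single, one_smul]
      rfl
    rw [Finset.sum_congr rfl (fun i _ => h1 i)]
    rw [Fin.sum_univ_eq_sum_range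
      (fun i => (single (pathVertex ends k a i) (1 : ZMod 2) +
        single (pathVertex ends k a (i + 1)) 1))]
    rw [telescope (fun i => (single (pathVertex ends k a i) (1 : ZMod 2)))]
    have h2 : ends a = s((Quot.out (ends a)).1, (Quot.out (ends a)).2) :=
      (Quot.out_eq (ends a)).symm
    have h3 : bdry (ends a) = single (Quot.out (ends a)).1 (1 : ZMod 2) +
        single (Quot.out (ends a)).2 1 := by
      conv_lhs => rw [h2]
      rfl
    rw [h3, Finsupp.mapDomain_add, Finsupp.mapDomain_single, Finsupp.mapDomain_single]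
    congr 2
    simp [pathVertex]

lemma dd_inner (x : (Σ e : E, Fin (k e + 1)) →₀ ZMod 2) (e : E) (i : Fin (k e)) :
    dd (pathEnds ends k) x (Sum.inr ⟨e, i⟩) =
      x ⟨e, i.castSucc⟩ + x ⟨e, i.succ⟩ := by
  classical
  induction x using Finsupp.induction_linear with
  | zero => simp
  | add x y hx hy =>
    rw [map_add, Finsupp.add_apply, hx, hy, Finsupp.add_apply, Finsupp.add_apply]
    abel
  | single q c =>
    obtain ⟨a, j⟩ := q
    have h2 : bdry (pathEnds ends k ⟨a, j⟩) =
        single (pathVertex ends k a j.1) (1 : ZMod 2) +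
          single (pathVertex ends k a (j.1 + 1)) 1 := rfl
    rw [dd_single, h2, Finsupp.smul_apply, Finsupp.add_apply, smul_eq_mul, mul_add,
      Finsupp.single_apply, Finsupp.single_apply]
    have e1 : (pathVertex ends k a j.1 = Sum.inr ⟨e, i⟩) ↔
        ((⟨a, j⟩ : Σ e : E, Fin (k e + 1)) = ⟨e, i.succ⟩) := by
      unfold pathVertex
      constructor
      · intro h
        split_ifs at h with h3 h4
        obtain ⟨rfl, h5⟩ := Sigma.mk.inj (Sum.inr.inj h)
        have h6 := congrArg Fin.val (eq_of_heq h5)
        simp only at h6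
        congr 1
        apply Fin.ext
        rw [Fin.val_succ, ← h6]
        omega
      · intro h
        obtain ⟨rfl, h5⟩ := Sigma.mk.inj h
        have h6 := eq_of_heq h5
        subst h6
        simp
    have e2 : (pathVertex ends k a (j.1 + 1) = Sum.inr ⟨e, i⟩) ↔
        ((⟨a, j⟩ : Σ e : E, Fin (k e + 1)) = ⟨e, i.castSucc⟩) := by
      unfold pathVertex
      constructor
      · intro h
        have h3 : ¬ (j.1 + 1 = 0) := by omega
        rw [if_neg h3] at h
        split_ifs at h with h4
        obtain ⟨rfl, h5⟩ := Sigma.mk.inj (Sum.inr.inj h)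
        have h6 := congrArg Fin.val (eq_of_heq h5)
        simp only [Nat.add_sub_cancel] at h6
        congr 1
        apply Fin.ext
        rw [Fin.val_castSucc, ← h6]
      · intro h
        obtain ⟨rfl, h5⟩ := Sigma.mk.inj h
        have h6 := eq_of_heq h5
        subst h6
        simp
    rw [Finsupp.single_apply, Finsupp.single_apply]
    simp only [e1, e2]
    rw [add_comm]
    congr 1 <;> split_ifs <;> simp

lemma ext_subdiv : Ext (cyc ends) (cyc (pathEnds ends k)) Set.univ
    (fun q : Σ e : E, Fin (k e + 1) => q.1) where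
  surj a := ⟨⟨a, 0⟩, trivial, rfl⟩
  fin a := by
    apply (Set.finite_range (fun i : Fin (k a + 1) => (⟨a, i⟩ : Σ e : E, Fin (k e + 1)))).subset
    rintro ⟨b, i⟩ ⟨_, hb⟩
    simp only at hb
    subst hb
    exact ⟨i, rfl⟩
  iff x' _ := by
    have key : ∀ x, pl k x ∈ cyc (pathEnds ends k) ↔ x ∈ cyc ends := by
      intro x
      rw [mem_cyc, mem_cyc, dd_pl]
      constructor
      · intro h0
        apply Finsupp.mapDomain_injective (Sum.inl_injective)
        rw [h0, Finsupp.mapDomain_zero]
      · intro h0
        rw [h0, Finsupp.mapDomain_zero]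
    constructor
    · intro hx
      have hstep : ∀ e (i : Fin (k e)), x' ⟨e, i.castSucc⟩ = x' ⟨e, i.succ⟩ := by
        intro e i
        have h1 := dd_inner ends k x' e i
        rw [mem_cyc.1 hx, Finsupp.zero_apply] at h1
        rcases zmod2_cases (x' ⟨e, i.castSucc⟩) with h | h <;>
          rcases zmod2_cases (x' ⟨e, i.succ⟩) with h' | h' <;>
          rw [h, h'] at h1 ⊢
        · exact absurd h1 (by decide)
        · exact absurd h1 (by decide)
      have hconst : ∀ e (i : Fin (k e + 1)), x' ⟨e, i⟩ = x' ⟨e, 0⟩ := by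
        intro e i
        induction i using Fin.induction with
        | zero => rfl
        | succ i ih => rw [← hstep, ih]
      have hinj : Function.Injective
          (fun e : E => (⟨e, 0⟩ : Σ e : E, Fin (k e + 1))) := fun a b hab => by
        simpa using congrArg Sigma.fst hab
      let x : E →₀ ZMod 2 := Finsupp.comapDomain _ x' hinj.injOn
      have hx1 : ∀ e, x e = x' ⟨e, 0⟩ := fun e => rfl
      have hx2 : x' = pl k x := by
        ext ⟨e, i⟩
        rw [pl_apply, hx1, hconst]
      refine ⟨x, ?_, ?_⟩
      · rw [← key, ← hx2]; exact hx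
      · rintro ⟨e, i⟩ _
        rw [hx1]
        exact hconst e i
    · rintro ⟨x, hx, h1⟩
      have hx2 : x' = pl k x := by
        ext ⟨e, i⟩
        rw [pl_apply]
        exact h1 _ trivial
      rw [hx2, key]
      exact hx

end subdiv

end Pool.Agent.H209MF
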