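import Mathlib
import Pool.Agent.H209MF.Graph

set_option autoImplicit false

namespace Pool.Agent.H209MF

open Finsupp Module

/-- The doubled cycles of length `k + 2, k + 3, …` together with a vertex with `R k` loops. -/
def ends0 (k : ℕ) : Fin (R k) ⊕ (Σ m : ℕ, Fin (k + m + 2) × Bool) →
    Sym2 (Unit ⊕ (Σ m : ℕ, Fin (k + m + 2)))
  | Sum.inl _ => s(Sum.inl (), Sum.inl ())
  | Sum.inr ⟨m, (i, _)⟩ => s(Sum.inr ⟨m, i⟩, Sum.inr ⟨m, i + 1⟩)

variable (k : ℕ)

lemma dd_loop (x : (Fin (R k) ⊕ (Σ m : ℕ, Fin (k + m + 2) × Bool)) →₀ ZMod 2) :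
    dd (ends0 k) x (Sum.inl ()) = 0 := by
  classical
  induction x using Finsupp.induction_linear with
  | zero => simp
  | add x y hx hy => rw [map_add, Finsupp.add_apply, hx, hy, add_zero]
  | single q c =>
    rw [dd_single, Finsupp.smul_apply]
    rcases q with i | ⟨m, i, b⟩
    · have : bdry (ends0 k (Sum.inl i)) = single (Sum.inl ()) (1 : ZMod 2) +
          single (Sum.inl ()) 1 := rfl
      rw [this, Finsupp.add_apply, zmod2_add_self, smul_zero]
    · have : bdry (ends0 k (Sum.inr ⟨m, i, b⟩)) = single (Sum.inr ⟨m, i⟩) (1 : ZMod 2) +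
          single (Sum.inr ⟨m, i + 1⟩) 1 := rfl
      rw [this, Finsupp.add_apply, Finsupp.single_apply, Finsupp.single_apply,
        if_neg (by simp), if_neg (by simp), add_zero, smul_zero]

lemma dd_cycle (x : (Fin (R k) ⊕ (Σ m : ℕ, Fin (k + m + 2) × Bool)) →₀ ZMod 2) (m : ℕ)
    (j : Fin (k + m + 2)) :
    dd (ends0 k) x (Sum.inr ⟨m, j + 1⟩) =
      (x (Sum.inr ⟨m, j + 1, false⟩) + x (Sum.inr ⟨m, j + 1, true⟩)) +
      (x (Sum.inr ⟨m, j, false⟩) + x (Sum.inr ⟨m, j, true⟩)) := by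
  classical
  induction x using Finsupp.induction_linear with
  | zero => simp
  | add x y hx hy =>
    rw [map_add, Finsupp.add_apply, hx, hy]
    simp only [Finsupp.add_apply]
    abel
  | single q c =>
    rw [dd_single, Finsupp.smul_apply]
    rcases q with i | ⟨m', i, b⟩
    · have : bdry (ends0 k (Sum.inl i)) = single (Sum.inl ()) (1 : ZMod 2) +
          single (Sum.inl ()) 1 := rfl
      rw [this, Finsupp.add_apply]
      simp
    · have : bdry (ends0 k (Sum.inr ⟨m', i, b⟩)) = single (Sum.inr ⟨m', i⟩) (1 : ZMod 2) +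
          single (Sum.inr ⟨m', i + 1⟩) 1 := rfl
      rw [this, Finsupp.add_apply]
      by_cases hm : m' = m
      · subst hm
        have h1 : (i + 1 = j + 1) ↔ i = j := add_left_inj 1
        cases b <;> simp [Finsupp.single_apply, h1, mul_add]
      · simp only [Finsupp.single_apply, smul_eq_mul]
        have h1 : ∀ (u : Fin (k + m' + 2)) (v : Fin (k + m + 2)),
            ¬ ((Sum.inr ⟨m', u⟩ : Unit ⊕ (Σ m : ℕ, Fin (k + m + 2))) = Sum.inr ⟨m, v⟩) := by
          intro u v h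
          exact hm (congrArg Sigma.fst (Sum.inr.inj h))
        have h2 : ∀ (u : Fin (k + m' + 2) × Bool) (v : Fin (k + m + 2) × Bool),
            ¬ ((Sum.inr ⟨m', u⟩ : Fin (R k) ⊕ (Σ m : ℕ, Fin (k + m + 2) × Bool)) =
              Sum.inr ⟨m, v⟩) := by
          intro u v h
          exact hm (congrArg Sigma.fst (Sum.inr.inj h))
        simp only [if_neg (h1 _ _), if_neg (h2 _ _), add_zero, mul_zero]

lemma mem_cyc0 (x : (Fin (R k) ⊕ (Σ m : ℕ, Fin (k + m + 2) × Bool)) →₀ ZMod 2) :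
    x ∈ cyc (ends0 k) ↔ ∀ m, ∃ c, ∀ j : Fin (k + m + 2),
      x (Sum.inr ⟨m, j, false⟩) + x (Sum.inr ⟨m, j, true⟩) = c := by
  rw [mem_cyc]
  constructor
  · intro h m
    refine ⟨x (Sum.inr ⟨m, 0, false⟩) + x (Sum.inr ⟨m, 0, true⟩), ?_⟩
    have hstep : ∀ j : Fin (k + m + 2),
        x (Sum.inr ⟨m, j + 1, false⟩) + x (Sum.inr ⟨m, j + 1, true⟩) =
        x (Sum.inr ⟨m, j, false⟩) + x (Sum.inr ⟨m, j, true⟩) := by
      intro j
      have h1 := dd_cycle k x m j
      rw [h, Finsupp.zero_apply] at h1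
      rcases zmod2_cases (x (Sum.inr ⟨m, j + 1, false⟩) + x (Sum.inr ⟨m, j + 1, true⟩)) with a | a <;>
        rcases zmod2_cases (x (Sum.inr ⟨m, j, false⟩) + x (Sum.inr ⟨m, j, true⟩)) with b | b <;>
        rw [a, b] at h1 ⊢
      · exact absurd h1 (by decide)
      · exact absurd h1 (by decide)
    intro j
    induction j using Fin.induction with
    | zero => rfl
    | succ i ih =>
      have : i.succ = i.castSucc + 1 := by
        rw [Fin.coeSucc_eq_succ]
      rw [this, hstep, ih]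
  · intro h
    ext v
    rcases v with ⟨⟩ | ⟨m, j⟩
    · exact dd_loop k x
    · obtain ⟨c, hc⟩ := h m
      have h1 := dd_cycle k x m (j - 1)
      rw [sub_add_cancel, hc, hc, zmod2_add_self] at h1
      exact h1

/-- The label of an edge. -/
def lab0 : Fin (R k) ⊕ (Σ m : ℕ, Fin (k + m + 2) × Bool) → ℕ × Bool
  | Sum.inl _ => (0, false)
  | Sum.inr ⟨_, (i, b)⟩ => (i.1, b)

/-- The edges of the block number `n`. -/
def blk0 (n : ℕ) : Set (Fin (R k) ⊕ (Σ m : ℕ, Fin (k + m + 2) × Bool)) :=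
  {a | ∃ m, k + m = n ∧ ∃ p : Fin (k + m + 2) × Bool, a = Sum.inr ⟨m, p⟩}

lemma blk0_blk (m : ℕ) : Blk (cyc (ends0 k)) (k + m) (blk0 k (k + m)) := by
  classical
  have hmem : ∀ a, a ∈ blk0 k (k + m) ↔ ∃ p : Fin (k + m + 2) × Bool, a = Sum.inr ⟨m, p⟩ := by
    intro a
    constructor
    · rintro ⟨m', h1, p, rfl⟩
      obtain rfl : m' = m := by omega
      exact ⟨p, rfl⟩
    · rintro ⟨p, rfl⟩
      exact ⟨m, rfl, p, rfl⟩
  refine ⟨?_, lab0 k, ?_, ?_, ?_⟩
  · apply (Set.finite_range (fun p : Fin (k + m + 2) × Bool =>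
      (Sum.inr ⟨m, p⟩ : Fin (R k) ⊕ (Σ m : ℕ, Fin (k + m + 2) × Bool)))).subset
    intro a ha
    obtain ⟨p, rfl⟩ := (hmem a).1 ha
    exact ⟨p, rfl⟩
  · intro a ha
    obtain ⟨⟨i, b⟩, rfl⟩ := (hmem a).1 ha
    exact i.2
  · rintro ⟨i, b⟩ hp
    exact ⟨Sum.inr ⟨m, (⟨i, hp⟩, b)⟩, (hmem _).2 ⟨_, rfl⟩, rfl⟩
  · intro x hx
    rw [mem_cyc0]
    constructor
    · intro h
      obtain ⟨c, hc⟩ := h m
      refine ⟨fun p => if hp : p.1 < k + m + 2 then x (Sum.inr ⟨m, (⟨p.1, hp⟩, p.2)⟩) else 0,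
        c, ?_, ?_⟩
      · intro i hi
        simp only [dif_pos hi]
        exact hc ⟨i, hi⟩
      · intro a ha
        obtain ⟨⟨i, b⟩, rfl⟩ := (hmem a).1 ha
        show _ = if hp : i.1 < k + m + 2 then x (Sum.inr ⟨m, (⟨i.1, hp⟩, b)⟩) else 0
        rw [dif_pos i.2]
    · rintro ⟨y, c, hy, hxy⟩ m'
      by_cases hm : m' = m
      · subst hm
        refine ⟨c, fun j => ?_⟩
        rw [hxy _ ((hmem _).2 ⟨_, rfl⟩), hxy _ ((hmem _).2 ⟨_, rfl⟩)]
        exact hy j.1 j.2
      · refine ⟨0, fun j => ?_⟩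
        have h0 : ∀ b, x (Sum.inr ⟨m', (j, b)⟩) = 0 := by
          intro b
          by_contra hne
          obtain ⟨p, hp⟩ := (hmem _).1 (hx _ hne)
          exact hm (congrArg Sigma.fst (Sum.inr.inj hp))
        rw [h0, h0, add_zero]

lemma blk0_split (m : ℕ) (X : Set (Fin (R k) ⊕ (Σ m : ℕ, Fin (k + m + 2) × Bool))) :
    Split (cyc (ends0 k)) X (blk0 k (k + m)) := by
  intro x hx y hy1 hy2
  have h := (mem_cyc0 k x).1 (mem_sub.1 hx).1
  rw [mem_cyc0]
  intro m'
  by_cases hm : m' = m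
  · subst hm
    obtain ⟨c, hc⟩ := h m'
    refine ⟨c, fun j => ?_⟩
    rw [hy1 _ ⟨m', rfl, _, rfl⟩, hy1 _ ⟨m', rfl, _, rfl⟩]
    exact hc j
  · refine ⟨0, fun j => ?_⟩
    have : ∀ b, (Sum.inr ⟨m', (j, b)⟩ : Fin (R k) ⊕ (Σ m : ℕ, Fin (k + m + 2) × Bool)) ∉
        blk0 k (k + m) := by
      rintro b ⟨m2, h1, p, h2⟩
      have := congrArg Sigma.fst (Sum.inr.inj h2)
      simp only at this
      omega
    rw [hy2 _ (this _), hy2 _ (this _), add_zero]

lemma dat0 : Dat (cyc (ends0 k)) Set.univ k (Set.range Sum.inl) (blk0 k) where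
  fin := Set.finite_range _
  mem a := by
    refine ⟨fun _ => ?_, fun _ => trivial⟩
    rcases a with i | ⟨m, p⟩
    · exact Or.inl ⟨i, rfl⟩
    · exact Or.inr ⟨k + m, by omega, m, rfl, p, rfl⟩
  disjA := by
    rintro n _ _ ⟨i, rfl⟩ ⟨m, _, p, hp⟩
    cases hp
  disj := by
    rintro m n _ _ hmn _ ⟨m1, h1, p, rfl⟩ ⟨m2, h2, q, hq⟩
    have := congrArg Sigma.fst (Sum.inr.inj hq)
    simp only at this
    omega
  blk n hn := by
    obtain ⟨m, rfl⟩ := Nat.exists_eq_add_of_le hn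
    exact blk0_blk k m
  split n hn := by
    obtain ⟨m, rfl⟩ := Nat.exists_eq_add_of_le hn
    exact blk0_split k m _
  rank := by
    classical
    have h1 : sub (cyc (ends0 k)) (Set.range Sum.inl) =
        Finsupp.supported (ZMod 2) (ZMod 2) (Set.range Sum.inl) := by
      unfold sub
      rw [inf_eq_right]
      intro x hx
      rw [Finsupp.mem_supported] at hx
      rw [mem_cyc0]
      intro m
      refine ⟨0, fun j => ?_⟩
      have : ∀ b, x (Sum.inr ⟨m, (j, b)⟩) = 0 := by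
        intro b
        by_contra hne
        obtain ⟨i, hi⟩ := hx (Finset.mem_coe.2 (Finsupp.mem_support_iff.2 hne))
        cases hi
      rw [this, this, add_zero]
    rw [h1, (Finsupp.supportedEquivFinsupp (M := ZMod 2) (R := ZMod 2)
      (Set.range (Sum.inl : Fin (R k) → _))).finrank_eq]
    have : Fintype (Set.range (Sum.inl : Fin (R k) →
      Fin (R k) ⊕ (Σ m : ℕ, Fin (k + m + 2) × Bool))) := Fintype.ofFinite _
    rw [Module.finrank_finsupp_self]
    rw [← Nat.card_eq_fintype_card, Nat.card_range_of_injective Sum.inl_injective]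
    simp
  cover := by
    classical
    rintro _ ⟨i, rfl⟩
    refine ⟨single (Sum.inl i) 1, ?_, by simp⟩
    rw [mem_sub]
    constructor
    · rw [mem_cyc0]
      intro m
      exact ⟨0, fun j => by simp⟩
    · intro a ha
      rw [Finsupp.single_apply] at ha
      split_ifs at ha with h
      · exact ⟨i, h⟩
      · exact (ha rfl).elim

lemma hasBlk0 (n : ℕ) : HasBlk (cyc (ends0 k)) Set.univ n ↔ k ≤ n := by
  classical
  constructor
  · rintro ⟨Z, _, hB, hS⟩
    have hd := dat0 k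
    have hne : Z.Nonempty := by
      have := hB.ncard_gt
      by_contra hcon
      rw [Set.not_nonempty_iff_eq_empty] at hcon
      rw [hcon, Set.ncard_empty] at this
      omega
    obtain ⟨a, ha⟩ := hne
    rcases (hd.mem a).1 trivial with h1 | ⟨n', hn', h1⟩
    · exfalso
      obtain ⟨i, rfl⟩ := h1
      have hsp : Split (cyc (ends0 k)) Z {Sum.inl i} := by
        intro x hx y hy1 hy2
        rw [mem_cyc0]
        intro m
        exact ⟨0, fun j => by rw [hy2 _ (by simp), hy2 _ (by simp), add_zero]⟩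
      have := hB.conn (Set.singleton_subset_iff.2 ha) (Set.singleton_nonempty _) hsp
      have h2 := hB.ncard_gt
      rw [← this, Set.ncard_singleton] at h2
      omega
    · have := (hd.blk_eq hB (Set.subset_univ _) hn' ha h1).1
      omega
  · intro hn
    have hd := dat0 k
    exact ⟨blk0 k n, Set.subset_univ _, hd.blk n hn, hd.split n hn⟩

end Pool.Agent.H209MF
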